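import Pool.Agent.KS6_30.Weyl.Loop

/-!
The sequences of vectors given by the Knizhnik-Zamolodchikov recursion, and the action of the
raising operators on them.
-/

set_option autoImplicit false

namespace Pool.Agent.KS6_30.Affine

open Finset

section inter

variable {V : Type*} [AddCommGroup V] [Module ℂ V]

lemma swapA (A B : Module.End ℂ V) (v : V) : A (B v) = B (A v) + cm A B v := by
  change A (B v) = B (A v) + (A (B v) - B (A v)); abel

/-- The data: operators `x0, x1` (lowering), `y0, y1` (raising), `h0, h1` with the relations of the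
affine algebra, and sequences `α, ω` with the recursion. -/
structure KZ (x0 x1 y0 y1 h0 h1 : Module.End ℂ V) (κ r : ℂ) (α ω : ℕ → V) : Prop where
  e00 : cm y0 x0 = h0
  e01 : cm y0 x1 = 0
  e10 : cm y1 x0 = 0
  e11 : cm y1 x1 = h1
  h00 : cm h0 x0 = (-2 : ℂ) • x0
  h01 : cm h0 x1 = (2 : ℂ) • x1
  h10 : cm h1 x0 = (2 : ℂ) • x0
  h11 : cm h1 x1 = (-2 : ℂ) • x1
  hs0 : cm x0 (cm x0 (cm x0 x1)) = 0
  hs1 : cm x1 (cm x1 (cm x1 x0)) = 0
  hκ : ∀ N : ℕ, κ * ((N : ℂ) + 1) ≠ 0
  hκr : ∀ N : ℕ, κ * (N : ℂ) + r ≠ 0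
  rα : ∀ N : ℕ, (κ * ((N : ℂ) + 1)) • α (N + 1) = ∑ j ∈ range (N + 1),
    ((2⁻¹ : ℂ) • LH x0 x1 (N - j) (α j) + LE x0 x1 (N - j) (ω j))
  rω : ∀ N : ℕ, (κ * (N : ℂ) + r) • ω N = ∑ j ∈ range (N + 1), LF x0 x1 (N - j) (α j) -
    (2⁻¹ : ℂ) • ∑ j ∈ range N, LH x0 x1 (N - 1 - j) (ω j)
  a0 : y0 (α 0) = 0
  a1 : y1 (α 0) = 0
  w1α : ∀ N, h1 (α N) = r • α N
  w0ω : ∀ N, h0 (ω N) = (κ - r) • ω N

theorem KZ.main {x0 x1 y0 y1 h0 h1 : Module.End ℂ V} {κ r : ℂ} {α ω : ℕ → V}
    (K : KZ x0 x1 y0 y1 h0 h1 κ r α ω) (N : ℕ) :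
    y1 (α N) = 0 ∧ y1 (ω N) = α N ∧ y0 (ω N) = 0 ∧ y0 (α N) = if N = 0 then 0 else ω (N - 1) := by
  have Y1E := fun k => y1E x0 x1 y1 h1 K.e10 K.e11 K.h10 K.hs0 K.hs1 k
  have Y1H := fun k => y1Hk x0 x1 y1 h1 K.e10 K.e11 K.h10 K.h11 K.hs0 K.hs1 k
  have Y1F := fun k => y1F x0 x1 y1 h1 K.e10 K.e11 K.h10 K.h11 K.hs0 K.hs1 k
  have Y0E := fun k => y0E x0 x1 y0 h0 K.e00 K.e01 K.h00 K.h01 K.hs0 K.hs1 k
  have Y0H := fun k => y0Hk x0 x1 y0 h0 K.e00 K.e01 K.h00 K.h01 K.hs0 K.hs1 k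
  have Y0F := fun k => y0F x0 x1 y0 h0 K.e00 K.e01 K.h01 K.hs0 K.hs1 k
  induction N using Nat.strong_induction_on with
  | _ N ih =>
  -- the vectors `α`
  have A1 : y1 (α N) = 0 := by
    cases N with
    | zero => exact K.a1
    | succ M =>
      have h := congrArg y1 (K.rα M)
      rw [map_smul, map_sum] at h
      have h' : ∑ j ∈ range (M + 1), y1 ((2⁻¹ : ℂ) • LH x0 x1 (M - j) (α j) +
          LE x0 x1 (M - j) (ω j)) = 0 := by
        refine sum_eq_zero fun j hj => ?_
        have hj' := mem_range.mp hj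
        obtain ⟨b1, b2, -, -⟩ := ih j hj'
        rw [map_add, map_smul, swapA y1 (LH x0 x1 (M - j)), swapA y1 (LE x0 x1 (M - j)), b1, b2, Y1H,
          Y1E, map_zero, LinearMap.smul_apply, LinearMap.zero_apply]
        module
      rw [h'] at h
      exact (smul_eq_zero.mp h).resolve_left (K.hκ M)
  have A0 : y0 (α N) = if N = 0 then 0 else ω (N - 1) := by
    cases N with
    | zero => simpa using K.a0
    | succ M =>
      rw [if_neg (Nat.succ_ne_zero M), Nat.add_sub_cancel]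
      have h := congrArg y0 (K.rα M)
      rw [map_smul, map_sum] at h
      have h' : ∑ j ∈ range (M + 1), y0 ((2⁻¹ : ℂ) • LH x0 x1 (M - j) (α j) +
          LE x0 x1 (M - j) (ω j)) = (κ * ((M : ℂ) + 1)) • ω M := by
        have t1 : ∀ j ∈ range (M + 1), y0 ((2⁻¹ : ℂ) • LH x0 x1 (M - j) (α j) +
            LE x0 x1 (M - j) (ω j)) = LF x0 x1 (M - j) (α j) +
            ((2⁻¹ : ℂ) • LH x0 x1 (M - j) (if j = 0 then 0 else ω (j - 1)) +
              cm y0 (LE x0 x1 (M - j)) (ω j)) := by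
          intro j hj
          have hj' := mem_range.mp hj
          obtain ⟨-, -, b3, b4⟩ := ih j hj'
          rw [map_add, map_smul, swapA y0 (LH x0 x1 (M - j)), swapA y0 (LE x0 x1 (M - j)), b3, b4,
            Y0H, map_zero, LinearMap.smul_apply]
          module
        rw [sum_congr rfl t1, sum_add_distrib, sum_add_distrib, sum_range_succ' (fun j =>
          (2⁻¹ : ℂ) • LH x0 x1 (M - j) (if j = 0 then 0 else ω (j - 1))),
          sum_range_succ (fun j => cm y0 (LE x0 x1 (M - j)) (ω j))]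
        have t2 : ∀ j ∈ range M, (2⁻¹ : ℂ) • LH x0 x1 (M - (j + 1))
            (if j + 1 = 0 then 0 else ω (j + 1 - 1)) = (2⁻¹ : ℂ) • LH x0 x1 (M - 1 - j) (ω j) := by
          intro j _
          rw [if_neg (Nat.succ_ne_zero j), Nat.add_sub_cancel]
          have : M - (j + 1) = M - 1 - j := by omega
          rw [this]
        have t3 : ∀ j ∈ range M, cm y0 (LE x0 x1 (M - j)) (ω j) =
            -(LH x0 x1 (M - 1 - j) (ω j)) := by
          intro j hj
          have hj' := mem_range.mp hj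
          have : M - j = (M - 1 - j) + 1 := by omega
          rw [this, Y0E, LinearMap.neg_apply]
        rw [sum_congr rfl t2, sum_congr rfl t3, if_pos rfl, map_zero, smul_zero, add_zero,
          Nat.sub_self, LE_zero, K.e00, K.w0ω, sum_neg_distrib, ← smul_sum]
        have h3 := K.rω M
        have h4 : ∑ j ∈ range (M + 1), LF x0 x1 (M - j) (α j) = (κ * (M : ℂ) + r) • ω M +
            (2⁻¹ : ℂ) • ∑ j ∈ range M, LH x0 x1 (M - 1 - j) (ω j) := by rw [h3]; abel
        rw [h4]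
        module
      rw [h'] at h
      exact smul_right_injective V (K.hκ M) h
  -- the vectors `ω`
  have hα : ∀ j ≤ N, y1 (α j) = 0 ∧ y0 (α j) = if j = 0 then 0 else ω (j - 1) := by
    intro j hj
    rcases Nat.lt_or_ge j N with h | h
    · exact ⟨(ih j h).1, (ih j h).2.2.2⟩
    · obtain rfl : j = N := by omega
      exact ⟨A1, A0⟩
  have W0 : y0 (ω N) = 0 := by
    have h := congrArg y0 (K.rω N)
    rw [map_smul, map_sub, map_smul, map_sum, map_sum] at h
    have t1 : ∀ j ∈ range (N + 1), y0 (LF x0 x1 (N - j) (α j)) =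
        LF x0 x1 (N - j) (if j = 0 then 0 else ω (j - 1)) := by
      intro j hj
      have hj' := mem_range.mp hj
      rw [swapA, Y0F, (hα j (by omega)).2, LinearMap.zero_apply, add_zero]
    have t2 : ∀ j ∈ range N, y0 (LH x0 x1 (N - 1 - j) (ω j)) =
        (2 : ℂ) • LF x0 x1 (N - 1 - j) (ω j) := by
      intro j hj
      have hj' := mem_range.mp hj
      rw [swapA, Y0H, (ih j hj').2.2.1, map_zero, zero_add, LinearMap.smul_apply]
    have t3 : ∀ j ∈ range N, LF x0 x1 (N - (j + 1)) (if j + 1 = 0 then 0 else ω (j + 1 - 1)) =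
        LF x0 x1 (N - 1 - j) (ω j) := by
      intro j _
      rw [if_neg (Nat.succ_ne_zero j), Nat.add_sub_cancel]
      have : N - (j + 1) = N - 1 - j := by omega
      rw [this]
    rw [sum_congr rfl t1, sum_congr rfl t2, sum_range_succ', sum_congr rfl t3, if_pos rfl, map_zero,
      add_zero, ← smul_sum, smul_smul] at h
    norm_num at h
    rcases h with h | h
    · exact absurd h (K.hκr N)
    · exact h
  have W1 : y1 (ω N) = α N := by
    have h := congrArg y1 (K.rω N)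
    rw [map_smul, map_sub, map_smul, map_sum, map_sum] at h
    have t2 : ∀ j ∈ range N, y1 (LH x0 x1 (N - 1 - j) (ω j)) =
        LH x0 x1 (N - 1 - j) (α j) - (2 : ℂ) • LE x0 x1 (N - 1 - j) (ω j) := by
      intro j hj
      have hj' := mem_range.mp hj
      rw [swapA, Y1H, (ih j hj').2.1, LinearMap.smul_apply]
      module
    have t4 : ∀ j ∈ range N, y1 (LF x0 x1 (N - j) (α j)) = LH x0 x1 (N - 1 - j) (α j) := by
      intro j hj
      have hj' := mem_range.mp hj
      have e1 : N - j = (N - 1 - j) + 1 := by omega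
      rw [swapA, (hα j (by omega)).1, map_zero, zero_add, e1, Y1F]
    have t5 : y1 (LF x0 x1 (N - N) (α N)) = r • α N := by
      rw [swapA, A1, map_zero, zero_add, Nat.sub_self, LF_zero, K.e11, K.w1α]
    rw [sum_range_succ, sum_congr rfl t4, t5, sum_congr rfl t2, sum_sub_distrib, ← smul_sum] at h
    have h5 : (κ * (N : ℂ)) • α N = (2⁻¹ : ℂ) • ∑ j ∈ range N, LH x0 x1 (N - 1 - j) (α j) +
        ∑ j ∈ range N, LE x0 x1 (N - 1 - j) (ω j) := by
      cases N with
      | zero => simp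
      | succ M =>
        have h6 := K.rα M
        rw [sum_add_distrib, ← smul_sum] at h6
        push_cast
        rw [h6]
    have h7 : (κ * (N : ℂ) + r) • y1 (ω N) = (κ * (N : ℂ) + r) • α N := by
      rw [h, add_smul, h5]
      module
    exact smul_right_injective V (K.hκr N) h7
  exact ⟨A1, W1, W0, A0⟩

end inter

end Pool.Agent.KS6_30.Affine
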