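import Pool.Agent.KS6_30.Weyl.Words

/-!
The loop elements `e(-k-1)`, `f(-k)`, `h(-k-1)` in a ring with two elements `x0 = e(-1)`,
`x1 = f(0)` satisfying the Serre relations, and their commutation relations.
-/

set_option autoImplicit false

namespace Pool.Agent.KS6_30.Affine

section loop

variable {R : Type*} [Ring R] [Algebra ℂ R]

lemma cm_smulC (c : ℂ) (a b : R) : cm a (c • b) = c • cm a b := by
  simp only [cm, mul_smul_comm, smul_mul_assoc, smul_sub]

lemma smulC_cm (c : ℂ) (a b : R) : cm (c • a) b = c • cm a b := by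
  simp only [cm, mul_smul_comm, smul_mul_assoc, smul_sub]

/-- `e(-k-1)`. -/
noncomputable def LE (x0 x1 : R) : ℕ → R
  | 0 => x0
  | k + 1 => (2⁻¹ : ℂ) • cm (cm x0 x1) (LE x0 x1 k)

/-- `f(-k)`. -/
noncomputable def LF (x0 x1 : R) : ℕ → R
  | 0 => x1
  | k + 1 => -((2⁻¹ : ℂ) • cm (cm x0 x1) (LF x0 x1 k))

/-- `h(-k-1)`. -/
noncomputable def LH (x0 x1 : R) (k : ℕ) : R := cm (LE x0 x1 k) x1

variable (x0 x1 : R)

lemma LH_zero : LH x0 x1 0 = cm x0 x1 := rfl

lemma LE_zero : LE x0 x1 0 = x0 := rfl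

lemma LF_zero : LF x0 x1 0 = x1 := rfl

lemma hE (k : ℕ) : cm (LH x0 x1 0) (LE x0 x1 k) = (2 : ℂ) • LE x0 x1 (k + 1) := by
  rw [LE, smul_smul, LH_zero]; norm_num

lemma hF (k : ℕ) : cm (LH x0 x1 0) (LF x0 x1 k) = -((2 : ℂ) • LF x0 x1 (k + 1)) := by
  rw [LF, smul_neg, smul_smul, LH_zero]; norm_num

lemma anti_zero (m : ℕ) (hm : 2 ≤ m) (X : ℕ → ℕ → R) (h0 : ∀ a b, X a b = -X b a)
    (h1 : ∀ a b, a + b + 1 = m → X (a + 1) b = -X a (b + 1))
    (h2 : ∀ a b, a + b + 2 = m → X (a + 2) b = -X a (b + 2)) :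
    ∀ a b, a + b = m → X a b = 0 := by
  have key : ∀ a b, a + b + 2 = m → X a (b + 2) = 0 := by
    intro a b hab
    have e1 := h1 a (b + 1) (by omega)
    have e2 := h1 (a + 1) b (by omega)
    have e3 := h2 a b hab
    have e4 : X a (b + 2) = -X a (b + 2) := by
      calc X a (b + 2) = -X (a + 1) (b + 1) := by rw [e1, neg_neg]
        _ = X (a + 2) b := e2.symm
        _ = -X a (b + 2) := e3
    have e5 : (2 : ℂ) • X a (b + 2) = 0 := by
      rw [two_smul]
      nth_rewrite 1 [e4]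
      exact neg_add_cancel _
    exact (smul_eq_zero.mp e5).resolve_left two_ne_zero
  intro a b hab
  rcases Nat.lt_or_ge b 2 with hb | hb
  · interval_cases b
    · obtain ⟨a', rfl⟩ : ∃ a', a = a' + 2 := ⟨a - 2, by omega⟩
      rw [h0, key 0 a' (by omega), neg_zero]
    · obtain ⟨a', rfl⟩ : ∃ a', a = a' + 1 := ⟨a - 1, by omega⟩
      rw [h1 a' 1 (by omega), key a' 0 (by omega), neg_zero]
  · obtain ⟨b', rfl⟩ : ∃ b', b = b' + 2 := ⟨b - 2, by omega⟩
    exact key a b' (by omega)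

/-- The commutation relations of the loop elements, by the total degree `m`. -/
def LoopRel (m : ℕ) : Prop :=
  (∀ a b, a + b = m → cm (LE x0 x1 a) (LE x0 x1 b) = 0) ∧
  (∀ a b, a + b = m → cm (LF x0 x1 a) (LF x0 x1 b) = 0) ∧
  (∀ a b, a + b = m → cm (LE x0 x1 a) (LF x0 x1 b) = LH x0 x1 m) ∧
  (∀ a b, a + b = m → cm (LH x0 x1 a) (LE x0 x1 b) = (2 : ℂ) • LE x0 x1 (m + 1)) ∧
  (∀ a b, a + b = m → cm (LH x0 x1 a) (LF x0 x1 b) = -((2 : ℂ) • LF x0 x1 (m + 1))) ∧
  (∀ a b, a + b + 1 = m → cm (LH x0 x1 a) (LH x0 x1 b) = 0)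

theorem loopRel (hs0 : cm x0 (cm x0 (cm x0 x1)) = 0) (hs1 : cm x1 (cm x1 (cm x1 x0)) = 0)
    (m : ℕ) : LoopRel x0 x1 m := by
  induction m using Nat.strong_induction_on with
  | _ m ih =>
  have EE : ∀ a b, a + b = m → cm (LE x0 x1 a) (LE x0 x1 b) = 0 := by
    rcases Nat.lt_or_ge m 2 with hm | hm
    · have h01 : cm (LE x0 x1 0) (LE x0 x1 1) = 0 := by
        rw [LE, LE, cm_smulC, LE, cm_skew (cm x0 x1) x0, cm_neg, hs0]; simp
      intro a b hab
      interval_cases m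
      · obtain rfl : a = 0 := by omega
        obtain rfl : b = 0 := by omega
        exact cm_self _
      · rcases Nat.eq_zero_or_pos a with ha | ha
        · obtain rfl : b = 1 := by omega
          rw [ha]; exact h01
        · obtain rfl : a = 1 := by omega
          obtain rfl : b = 0 := by omega
          rw [cm_skew, h01, neg_zero]
    · refine anti_zero m hm (fun a b => cm (LE x0 x1 a) (LE x0 x1 b)) (fun a b => cm_skew _ _) ?_ ?_
      · intro a b hab
        have h1 := (ih (a + b) (by omega)).1 a b rfl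
        have h2 := cm_leib (LH x0 x1 0) (LE x0 x1 a) (LE x0 x1 b)
        rw [h1, cm_zero, hE, hE, smulC_cm, cm_smulC, ← smul_add] at h2
        have h3 := (smul_eq_zero.mp h2.symm).resolve_left two_ne_zero
        exact eq_neg_of_add_eq_zero_left h3
      · intro a b hab
        have h1 := (ih (a + b) (by omega)).1 a b rfl
        have h2 := cm_leib (LH x0 x1 1) (LE x0 x1 a) (LE x0 x1 b)
        rw [h1, cm_zero, (ih (1 + a) (by omega)).2.2.2.1 1 a rfl,
          (ih (1 + b) (by omega)).2.2.2.1 1 b rfl, smulC_cm, cm_smulC, ← smul_add] at h2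
        have h3 := (smul_eq_zero.mp h2.symm).resolve_left two_ne_zero
        have e1 : 1 + a + 1 = a + 2 := by omega
        have e2 : 1 + b + 1 = b + 2 := by omega
        rw [e1, e2] at h3
        exact eq_neg_of_add_eq_zero_left h3
  have FF : ∀ a b, a + b = m → cm (LF x0 x1 a) (LF x0 x1 b) = 0 := by
    rcases Nat.lt_or_ge m 2 with hm | hm
    · have h01 : cm (LF x0 x1 0) (LF x0 x1 1) = 0 := by
        rw [LF, LF, cm_neg, cm_smulC, LF, cm_skew x0 x1, neg_cm, cm_neg, cm_skew (cm x1 x0) x1,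
          cm_neg, hs1]; simp
      intro a b hab
      interval_cases m
      · obtain rfl : a = 0 := by omega
        obtain rfl : b = 0 := by omega
        exact cm_self _
      · rcases Nat.eq_zero_or_pos a with ha | ha
        · obtain rfl : b = 1 := by omega
          rw [ha]; exact h01
        · obtain rfl : a = 1 := by omega
          obtain rfl : b = 0 := by omega
          rw [cm_skew, h01, neg_zero]
    · refine anti_zero m hm (fun a b => cm (LF x0 x1 a) (LF x0 x1 b)) (fun a b => cm_skew _ _) ?_ ?_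
      · intro a b hab
        have h1 := (ih (a + b) (by omega)).2.1 a b rfl
        have h2 := cm_leib (LH x0 x1 0) (LF x0 x1 a) (LF x0 x1 b)
        rw [h1, cm_zero, hF, hF, neg_cm, cm_neg, smulC_cm, cm_smulC, ← neg_add, ← smul_add] at h2
        have h3 := (smul_eq_zero.mp (neg_eq_zero.mp h2.symm)).resolve_left two_ne_zero
        exact eq_neg_of_add_eq_zero_left h3
      · intro a b hab
        have h1 := (ih (a + b) (by omega)).2.1 a b rfl
        have h2 := cm_leib (LH x0 x1 1) (LF x0 x1 a) (LF x0 x1 b)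
        rw [h1, cm_zero, (ih (1 + a) (by omega)).2.2.2.2.1 1 a rfl,
          (ih (1 + b) (by omega)).2.2.2.2.1 1 b rfl, neg_cm, cm_neg, smulC_cm, cm_smulC, ← neg_add,
          ← smul_add] at h2
        have h3 := (smul_eq_zero.mp (neg_eq_zero.mp h2.symm)).resolve_left two_ne_zero
        have e1 : 1 + a + 1 = a + 2 := by omega
        have e2 : 1 + b + 1 = b + 2 := by omega
        rw [e1, e2] at h3
        exact eq_neg_of_add_eq_zero_left h3
  -- the relations between `E` and `F`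
  have hj : ∀ j a b, j + a + b + 1 = m → cm (LH x0 x1 j) (LH x0 x1 (a + b)) =
      (2 : ℂ) • cm (LE x0 x1 (j + a + 1)) (LF x0 x1 b) -
        (2 : ℂ) • cm (LE x0 x1 a) (LF x0 x1 (j + b + 1)) := by
    intro j a b hab
    have h1 := (ih (a + b) (by omega)).2.2.1 a b rfl
    have h2 := cm_leib (LH x0 x1 j) (LE x0 x1 a) (LF x0 x1 b)
    rw [h1, (ih (j + a) (by omega)).2.2.2.1 j a rfl, (ih (j + b) (by omega)).2.2.2.2.1 j b rfl,
      cm_neg, smulC_cm, cm_smulC] at h2
    rw [h2, sub_eq_add_neg]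
  have EFZ : ∀ a b, a + b = m → cm (LE x0 x1 a) (LF x0 x1 b) = LH x0 x1 m ∧ True := by
    rcases Nat.eq_zero_or_pos m with hm | hm
    · intro a b hab
      obtain rfl : a = 0 := by omega
      obtain rfl : b = 0 := by omega
      subst hm
      exact ⟨rfl, trivial⟩
    obtain ⟨n, rfl⟩ : ∃ n, m = n + 1 := ⟨m - 1, by omega⟩
    set Z : R := cm (LH x0 x1 0) (LH x0 x1 n) with hZ
    have hY : ∀ a b, a + b = n + 1 → (2 : ℂ) • cm (LE x0 x1 a) (LF x0 x1 b) =
        (2 : ℂ) • cm (LE x0 x1 0) (LF x0 x1 (n + 1)) + (a : ℂ) • Z := by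
      intro a
      induction a with
      | zero =>
        intro b hb
        obtain rfl : b = n + 1 := by omega
        simp
      | succ a iha =>
        intro b hb
        have h1 := hj 0 a b (by omega)
        have e0 : a + b = n := by omega
        rw [e0, ← hZ] at h1
        have e1 : 0 + a + 1 = a + 1 := by omega
        have e2 : 0 + b + 1 = b + 1 := by omega
        rw [e1, e2, iha (b + 1) (by omega)] at h1
        have h2 : (2 : ℂ) • cm (LE x0 x1 (a + 1)) (LF x0 x1 b) = Z +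
            ((2 : ℂ) • cm (LE x0 x1 0) (LF x0 x1 (n + 1)) + (a : ℂ) • Z) :=
          (sub_eq_iff_eq_add.mp h1.symm)
        rw [h2]
        push_cast
        module
    have hZ0 : Z = 0 := by
      have h1 := hj n 0 0 (by omega)
      have e0 : 0 + 0 = 0 := rfl
      have e1 : n + 0 + 1 = n + 1 := by omega
      rw [e0, e1, hY (n + 1) 0 (by omega)] at h1
      rw [cm_skew, ← hZ] at h1
      have h2 : ((n : ℂ) + 2) • Z = 0 := by
        have h3 : ((n : ℂ) + 2) • Z = (((2 : ℂ) • cm (LE x0 x1 0) (LF x0 x1 (n + 1)) +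
          ((n + 1 : ℕ) : ℂ) • Z) - (2 : ℂ) • cm (LE x0 x1 0) (LF x0 x1 (n + 1))) + Z := by
          push_cast; module
        rw [h3, ← h1]; abel
      refine (smul_eq_zero.mp h2).resolve_left ?_
      exact_mod_cast (by omega : n + 2 ≠ 0)
    have h4 : (2 : ℂ) • LH x0 x1 (n + 1) = (2 : ℂ) • cm (LE x0 x1 0) (LF x0 x1 (n + 1)) := by
      have h5 := hY (n + 1) 0 (by omega)
      rw [hZ0, smul_zero, add_zero] at h5
      exact h5
    intro a b hab
    have h6 := hY a b hab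
    rw [hZ0, smul_zero, add_zero, ← h4] at h6
    exact ⟨smul_right_injective R (two_ne_zero (α := ℂ)) h6, trivial⟩
  have EF : ∀ a b, a + b = m → cm (LE x0 x1 a) (LF x0 x1 b) = LH x0 x1 m :=
    fun a b hab => (EFZ a b hab).1
  have HH : ∀ a b, a + b + 1 = m → cm (LH x0 x1 a) (LH x0 x1 b) = 0 := by
    intro a b hab
    have h1 := hj a b 0 (by omega)
    rw [EF _ _ (by omega), EF _ _ (by omega), sub_self] at h1
    exact h1
  have HEs : ∀ a b, a + b = m → cm (LH x0 x1 a) (LE x0 x1 b) = cm (LH x0 x1 b) (LE x0 x1 a) := by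
    intro a b hab
    have h1 := cm_leib (LE x0 x1 a) x1 (LE x0 x1 b)
    rw [EE a b hab, cm_zero, add_zero] at h1
    have h2 : cm x1 (LE x0 x1 b) = -LH x0 x1 b := by rw [cm_skew]; rfl
    rw [h2, cm_neg, ← cm_skew] at h1
    exact h1.symm
  have HFs : ∀ a b, a + b = m → cm (LH x0 x1 a) (LF x0 x1 b) = cm (LH x0 x1 b) (LF x0 x1 a) := by
    have hEF' : ∀ c, c ≤ m → LH x0 x1 c = cm (LE x0 x1 0) (LF x0 x1 c) := by
      intro c hc
      rcases Nat.lt_or_ge c m with h | h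
      · exact ((ih c h).2.2.1 0 c (by omega)).symm
      · obtain rfl : c = m := by omega
        exact (EF 0 c (by omega)).symm
    intro a b hab
    have h1 := cm_leib (LE x0 x1 0) (LF x0 x1 a) (LF x0 x1 b)
    rw [FF a b hab, cm_zero, ← hEF' a (by omega), ← hEF' b (by omega)] at h1
    have h2 : cm (LH x0 x1 a) (LF x0 x1 b) = -cm (LF x0 x1 a) (LH x0 x1 b) :=
      eq_neg_of_add_eq_zero_left h1.symm
    rw [h2, ← cm_skew]
  have hH0 : ∀ a, a + 1 ≤ m → cm (LH x0 x1 0) (LH x0 x1 a) = 0 := by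
    intro a ha
    rcases Nat.lt_or_ge (a + 1) m with h | h
    · exact (ih (a + 1) h).2.2.2.2.2 0 a (by omega)
    · exact HH 0 a (by omega)
  have HE : ∀ a b, a + b = m → cm (LH x0 x1 a) (LE x0 x1 b) = (2 : ℂ) • LE x0 x1 (m + 1) := by
    have h1 : ∀ a b, a + b + 1 = m → cm (LH x0 x1 a) (LE x0 x1 (b + 1)) =
        (2 : ℂ) • LE x0 x1 (m + 1) := by
      intro a b hab
      have h2 := cm_leib (LH x0 x1 0) (LH x0 x1 a) (LE x0 x1 b)
      have e1 : a + b + 1 = m := hab
      rw [hH0 a (by omega), (ih (a + b) (by omega)).2.2.2.1 a b rfl, hE, cm_smulC, cm_smulC,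
        e1, hE] at h2
      have h3 : cm (0 : R) (LE x0 x1 b) = 0 := by simp [cm]
      rw [h3, zero_add] at h2
      exact (smul_right_injective R (two_ne_zero (α := ℂ)) h2).symm
    intro a b hab
    rcases Nat.eq_zero_or_pos b with hb | hb
    · subst hb
      rw [HEs a 0 hab]
      obtain rfl : a = m := by omega
      exact hE x0 x1 a
    · obtain ⟨b', rfl⟩ : ∃ b', b = b' + 1 := ⟨b - 1, by omega⟩
      exact h1 a b' (by omega)
  have HF : ∀ a b, a + b = m → cm (LH x0 x1 a) (LF x0 x1 b) = -((2 : ℂ) • LF x0 x1 (m + 1)) := by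
    have h1 : ∀ a b, a + b + 1 = m → cm (LH x0 x1 a) (LF x0 x1 (b + 1)) =
        -((2 : ℂ) • LF x0 x1 (m + 1)) := by
      intro a b hab
      have h2 := cm_leib (LH x0 x1 0) (LH x0 x1 a) (LF x0 x1 b)
      have e1 : a + b + 1 = m := hab
      rw [hH0 a (by omega), (ih (a + b) (by omega)).2.2.2.2.1 a b rfl, hF, cm_neg, cm_neg,
        cm_smulC, cm_smulC, e1, hF] at h2
      have h3 : cm (0 : R) (LF x0 x1 b) = 0 := by simp [cm]
      rw [h3, zero_add, neg_inj] at h2
      exact (smul_right_injective R (two_ne_zero (α := ℂ)) h2).symm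
    intro a b hab
    rcases Nat.eq_zero_or_pos b with hb | hb
    · subst hb
      rw [HFs a 0 hab]
      obtain rfl : a = m := by omega
      exact hF x0 x1 a
    · obtain ⟨b', rfl⟩ : ∃ b', b = b' + 1 := ⟨b - 1, by omega⟩
      exact h1 a b' (by omega)
  exact ⟨EE, FF, EF, HE, HF, HH⟩

/-! ### The action of the raising operators -/

omit [Algebra ℂ R] in
lemma zero_cm (a : R) : cm (0 : R) a = 0 := by simp [cm]

section weights

variable (c : ℂ) (h : R) (h0 : cm h x0 = c • x0) (h1 : cm h x1 = (-c) • x1)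

include h0 h1 in
lemma wH : cm h (cm x0 x1) = 0 := by
  rw [cm_leib, h0, h1, smulC_cm, cm_smulC]; module

include h0 h1 in
lemma wE (k : ℕ) : cm h (LE x0 x1 k) = c • LE x0 x1 k := by
  induction k with
  | zero => exact h0
  | succ k ih =>
    rw [LE, cm_smulC, cm_leib, wH x0 x1 c h h0 h1, ih, cm_smulC, zero_cm, zero_add, smul_comm]

include h0 h1 in
lemma wF (k : ℕ) : cm h (LF x0 x1 k) = (-c) • LF x0 x1 k := by
  induction k with
  | zero => exact h1
  | succ k ih =>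
    rw [LF, cm_neg, cm_smulC, cm_leib, wH x0 x1 c h h0 h1, ih, cm_smulC, zero_cm, zero_add, smul_neg,
      smul_comm]

include h0 h1 in
lemma wHk (k : ℕ) : cm h (LH x0 x1 k) = 0 := by
  rw [LH, cm_leib, wE x0 x1 c h h0 h1, h1, smulC_cm, cm_smulC]; module

end weights

section raising

variable (y0 y1 h0 h1 : R)
  (e00 : cm y0 x0 = h0) (e01 : cm y0 x1 = 0) (e10 : cm y1 x0 = 0) (e11 : cm y1 x1 = h1)
  (h00 : cm h0 x0 = (-2 : ℂ) • x0) (h01 : cm h0 x1 = (2 : ℂ) • x1)
  (h10 : cm h1 x0 = (2 : ℂ) • x0) (h11 : cm h1 x1 = (-2 : ℂ) • x1)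
  (hs0 : cm x0 (cm x0 (cm x0 x1)) = 0) (hs1 : cm x1 (cm x1 (cm x1 x0)) = 0)

include e10 e11 h10 in
lemma y1H : cm y1 (cm x0 x1) = (-2 : ℂ) • x0 := by
  rw [cm_leib, e10, zero_cm, zero_add, e11, cm_skew, h10]; module

include e00 e01 h01 in
lemma y0H : cm y0 (cm x0 x1) = (2 : ℂ) • x1 := by
  rw [cm_leib, e01, cm_zero, add_zero, e00, h01]

include e10 e11 h10 hs0 hs1 in
lemma y1E (k : ℕ) : cm y1 (LE x0 x1 k) = 0 := by
  induction k with
  | zero => exact e10
  | succ k ih =>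
    have h2 := (loopRel x0 x1 hs0 hs1 k).1 0 k (zero_add k)
    rw [LE_zero] at h2
    rw [LE, cm_smulC, cm_leib, y1H x0 x1 y1 h1 e10 e11 h10, ih, cm_zero, add_zero, smulC_cm, h2,
      smul_zero, smul_zero]

include e00 e01 h01 hs0 hs1 in
lemma y0F (k : ℕ) : cm y0 (LF x0 x1 k) = 0 := by
  induction k with
  | zero => exact e01
  | succ k ih =>
    have h2 := (loopRel x0 x1 hs0 hs1 k).2.1 0 k (zero_add k)
    rw [LF_zero] at h2
    rw [LF, cm_neg, cm_smulC, cm_leib, y0H x0 x1 y0 h0 e00 e01 h01, ih, cm_zero, add_zero, smulC_cm,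
      h2, smul_zero, smul_zero, neg_zero]

include e10 e11 h10 h11 hs0 hs1 in
lemma y1Hk (k : ℕ) : cm y1 (LH x0 x1 k) = (-2 : ℂ) • LE x0 x1 k := by
  rw [LH, cm_leib, y1E x0 x1 y1 h1 e10 e11 h10 hs0 hs1, zero_cm, zero_add, e11, cm_skew,
    wE x0 x1 2 h1 h10 h11]
  module

include h10 h11 in
lemma Hh1 : cm (cm x0 x1) h1 = 0 := by
  rw [cm_skew, wH x0 x1 2 h1 h10 h11, neg_zero]

include h00 h01 in
lemma Hh0 : cm (cm x0 x1) h0 = 0 := by
  rw [cm_skew, wH x0 x1 (-2) h0 h00 (by rw [h01]; norm_num), neg_zero]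

include e00 e01 h00 h01 hs0 hs1 in
lemma y0E (k : ℕ) : cm y0 (LE x0 x1 (k + 1)) = -LH x0 x1 k := by
  have h3 : ∀ k, cm (cm x0 x1) (cm y0 (LE x0 x1 k)) = 0 → cm y0 (LE x0 x1 (k + 1)) =
      -LH x0 x1 k := by
    intro k hk
    rw [LE, cm_smulC, cm_leib, y0H x0 x1 y0 h0 e00 e01 h01, hk, add_zero, smulC_cm, smul_smul,
      cm_skew x1]
    change _ • -LH x0 x1 k = _
    norm_num
  induction k with
  | zero =>
    refine h3 0 ?_
    rw [LE_zero, e00, Hh0 x0 x1 h0 h00 h01]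
  | succ k ih =>
    refine h3 (k + 1) ?_
    have h5 := (loopRel x0 x1 hs0 hs1 (k + 1)).2.2.2.2.2 0 k (by omega)
    rw [LH_zero] at h5
    rw [ih, cm_neg, h5, neg_zero]

include e10 e11 h10 h11 hs0 hs1 in
lemma y1F (k : ℕ) : cm y1 (LF x0 x1 (k + 1)) = LH x0 x1 k := by
  have h3 : ∀ k, cm (cm x0 x1) (cm y1 (LF x0 x1 k)) = 0 → cm y1 (LF x0 x1 (k + 1)) =
      LH x0 x1 k := by
    intro k hk
    have h4 := (loopRel x0 x1 hs0 hs1 k).2.2.1 0 k (zero_add k)
    rw [LE_zero] at h4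
    rw [LF, cm_neg, cm_smulC, cm_leib, y1H x0 x1 y1 h1 e10 e11 h10, hk, add_zero, smulC_cm,
      smul_smul, h4]
    norm_num
  induction k with
  | zero =>
    refine h3 0 ?_
    rw [LF_zero, e11, Hh1 x0 x1 h1 h10 h11]
  | succ k ih =>
    refine h3 (k + 1) ?_
    have h5 := (loopRel x0 x1 hs0 hs1 (k + 1)).2.2.2.2.2 0 k (by omega)
    rw [LH_zero] at h5
    rw [ih, h5]

include e00 e01 h00 h01 hs0 hs1 in
lemma y0Hk (k : ℕ) : cm y0 (LH x0 x1 k) = (2 : ℂ) • LF x0 x1 k := by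
  rw [LH, cm_leib, e01, cm_zero, add_zero]
  cases k with
  | zero => rw [LE_zero, e00, h01]; rfl
  | succ k =>
    have h4 := (loopRel x0 x1 hs0 hs1 k).2.2.2.2.1 k 0 (add_zero k)
    rw [LF_zero] at h4
    rw [y0E x0 x1 y0 h0 e00 e01 h00 h01 hs0 hs1, neg_cm, h4, neg_neg]

end raising

end loop

end Pool.Agent.KS6_30.Affine
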