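import Mathlib

/-!
The two-term recursion for the norms, its solution, and the `p`-adic size of the solution.
-/

set_option autoImplicit false

namespace Pool.Agent.KS6_30.Affine

open Finset

/-! ### Numbers integral at `p`, and units at `p` -/

/-- `z` is a rational number with denominator prime to `p`. -/
def PInt (p : ℕ) (z : ℂ) : Prop := ∃ D m : ℤ, ¬ (p : ℤ) ∣ D ∧ (D : ℂ) * z = m

/-- `z` is a rational number with numerator and denominator prime to `p`. -/
def PUnit' (p : ℕ) (z : ℂ) : Prop := ∃ D m : ℤ, ¬ (p : ℤ) ∣ D ∧ ¬ (p : ℤ) ∣ m ∧ (D : ℂ) * z = m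

section pint

variable {p : ℕ} (hp : p.Prime)

lemma PUnit'.pint {z : ℂ} (h : PUnit' p z) : PInt p z := by
  obtain ⟨D, m, h1, _, h3⟩ := h
  exact ⟨D, m, h1, h3⟩

include hp in
lemma not_dvd_one : ¬ (p : ℤ) ∣ 1 := by
  intro h
  have := Int.le_of_dvd one_pos h
  have := hp.two_le
  omega

include hp in
lemma not_dvd_mul {a b : ℤ} (ha : ¬ (p : ℤ) ∣ a) (hb : ¬ (p : ℤ) ∣ b) : ¬ (p : ℤ) ∣ a * b := by
  intro h
  rcases (Nat.prime_iff_prime_int.mp hp).dvd_or_dvd h with h | h
  · exact ha h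
  · exact hb h

include hp in
lemma PInt.int (n : ℤ) : PInt p (n : ℂ) := ⟨1, n, not_dvd_one hp, by push_cast; ring⟩

include hp in
lemma PInt.mul {x y : ℂ} (hx : PInt p x) (hy : PInt p y) : PInt p (x * y) := by
  obtain ⟨D, m, h1, h3⟩ := hx
  obtain ⟨D', m', h1', h3'⟩ := hy
  refine ⟨D * D', m * m', not_dvd_mul hp h1 h1', ?_⟩
  push_cast
  rw [← h3, ← h3']; ring

include hp in
lemma PInt.add {x y : ℂ} (hx : PInt p x) (hy : PInt p y) : PInt p (x + y) := by
  obtain ⟨D, m, h1, h3⟩ := hx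
  obtain ⟨D', m', h1', h3'⟩ := hy
  refine ⟨D * D', D' * m + D * m', not_dvd_mul hp h1 h1', ?_⟩
  push_cast
  rw [← h3, ← h3']; ring

include hp in
lemma PInt.zero : PInt p 0 := by simpa using PInt.int hp 0

include hp in
lemma PInt.one : PInt p 1 := by simpa using PInt.int hp 1

include hp in
lemma PInt.neg {x : ℂ} (hx : PInt p x) : PInt p (-x) := by
  have := PInt.mul hp (PInt.int hp (-1)) hx
  simpa using this

include hp in
lemma PInt.sub {x y : ℂ} (hx : PInt p x) (hy : PInt p y) : PInt p (x - y) := by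
  rw [sub_eq_add_neg]; exact PInt.add hp hx (PInt.neg hp hy)

include hp in
lemma PInt.sum {ι : Type*} (s : Finset ι) (f : ι → ℂ) (h : ∀ i ∈ s, PInt p (f i)) :
    PInt p (∑ i ∈ s, f i) := by
  classical
  induction s using Finset.induction_on with
  | empty => simpa using PInt.zero hp
  | insert i s hi ih =>
    rw [sum_insert hi]
    exact PInt.add hp (h i (mem_insert_self _ _)) (ih fun j hj => h j (mem_insert_of_mem hj))

include hp in
lemma PUnit'.int {n : ℤ} (hn : ¬ (p : ℤ) ∣ n) : PUnit' p (n : ℂ) :=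
  ⟨1, n, not_dvd_one hp, hn, by push_cast; ring⟩

include hp in
lemma PUnit'.one : PUnit' p 1 := by simpa using PUnit'.int hp (n := 1) (not_dvd_one hp)

include hp in
lemma PUnit'.small {n : ℤ} (h0 : n ≠ 0) (h : |n| < p) : PUnit' p (n : ℂ) := by
  refine PUnit'.int hp fun hd => h0 (Int.eq_zero_of_abs_lt_dvd hd h)

include hp in
lemma PUnit'.mul {x y : ℂ} (hx : PUnit' p x) (hy : PUnit' p y) : PUnit' p (x * y) := by
  obtain ⟨D, m, h1, h2, h3⟩ := hx
  obtain ⟨D', m', h1', h2', h3'⟩ := hy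
  refine ⟨D * D', m * m', not_dvd_mul hp h1 h1', not_dvd_mul hp h2 h2', ?_⟩
  push_cast
  rw [← h3, ← h3']; ring

include hp in
lemma PUnit'.ne_zero {x : ℂ} (hx : PUnit' p x) : x ≠ 0 := by
  obtain ⟨D, m, _, h2, h3⟩ := hx
  rintro rfl
  rw [mul_zero] at h3
  have : m = 0 := by exact_mod_cast h3.symm
  rw [this] at h2
  exact h2 (dvd_zero _)

include hp in
lemma PUnit'.inv {x : ℂ} (hx : PUnit' p x) : PUnit' p x⁻¹ := by
  have h0 := hx.ne_zero hp
  obtain ⟨D, m, h1, h2, h3⟩ := hx
  refine ⟨m, D, h2, h1, ?_⟩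
  rw [← h3]; field_simp

include hp in
lemma PUnit'.add_mul {x y : ℂ} (hx : PUnit' p x) (hy : PInt p y) : PUnit' p (x + p * y) := by
  obtain ⟨D, m, h1, h2, h3⟩ := hx
  obtain ⟨D', m', h1', h3'⟩ := hy
  refine ⟨D * D', D' * m + p * (D * m'), not_dvd_mul hp h1 h1', ?_, ?_⟩
  · intro h
    have h4 : (p : ℤ) ∣ D' * m := (Int.dvd_add_left (dvd_mul_right _ _)).mp h
    exact not_dvd_mul hp h1' h2 h4
  · push_cast
    rw [← h3, ← h3']; ring

end pint

/-! ### The solution of the recursion -/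

section solution

variable (κ r : ℂ)

/-- Coefficients of `(1 - z) ^ (-3 / (2 κ))`. -/
noncomputable def cc : ℕ → ℂ
  | 0 => 1
  | j + 1 => (2 * κ * j + 3) * (2 * (κ * (j + 1)))⁻¹ * cc j

/-- Coefficients of a hypergeometric function. -/
noncomputable def hA : ℕ → ℂ
  | 0 => 1
  | N + 1 => (κ * N + r - 1) * (κ * N - 1) * ((κ * (N + 1)) * (κ * N + r))⁻¹ * hA N

/-- Coefficients of a hypergeometric function. -/
noncomputable def hW (N : ℕ) : ℂ := (1 - κ * N) * (κ * N + r)⁻¹ * hA κ r N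

variable (hκ : ∀ N : ℕ, κ * ((N : ℂ) + 1) ≠ 0) (hκr : ∀ N : ℕ, κ * (N : ℂ) + r ≠ 0)

include hκ in
lemma cc_rec (n : ℕ) : κ * ((n + 1) * cc κ (n + 1)) = (κ * n + 3 / 2) * cc κ n := by
  rw [cc]
  have h := hκ n
  have h1 : κ ≠ 0 := fun h0 => h (by rw [h0, zero_mul])
  have h2 : (n : ℂ) + 1 ≠ 0 := fun h0 => h (by rw [h0, mul_zero])
  field_simp

include hκr in
lemma hW_rec (n : ℕ) : (κ * n + r) * hW κ r n = (1 - κ * n) * hA κ r n := by
  rw [hW]
  have h := hκr n
  field_simp

include hκ hκr in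
lemma hA_rec (n : ℕ) : κ * ((n + 1) * hA κ r (n + 1)) = -((κ * n + r - 1) * hW κ r n) := by
  rw [hW, hA]
  have h := hκ n
  have h1 : κ ≠ 0 := fun h0 => h (by rw [h0, zero_mul])
  have h2 : (n : ℂ) + 1 ≠ 0 := fun h0 => h (by rw [h0, mul_zero])
  have h3 := hκr n
  field_simp
  ring

open PowerSeries

/-- The three power series. -/
noncomputable def sC : PowerSeries ℂ := PowerSeries.mk (cc κ)
@[inherit_doc sC] noncomputable def sA : PowerSeries ℂ := PowerSeries.mk (hA κ r)
@[inherit_doc sC] noncomputable def sW : PowerSeries ℂ := PowerSeries.mk (hW κ r)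

lemma coeff_XD (f : PowerSeries ℂ) (n : ℕ) :
    coeff n (X * derivative ℂ f) = n * coeff n f := by
  cases n with
  | zero => rw [coeff_zero_X_mul]; simp
  | succ n => rw [coeff_succ_X_mul, coeff_derivative]; push_cast; ring

include hκ in
lemma sC_eq : C κ * ((1 - X) * derivative ℂ (sC κ)) = C (3 / 2 : ℂ) * sC κ := by
  ext n
  rw [coeff_C_mul, coeff_C_mul, sub_mul, one_mul, map_sub, coeff_XD, coeff_derivative, sC, coeff_mk,
    coeff_mk]
  have := cc_rec κ hκ n
  linear_combination this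

include hκ hκr in
lemma sA_eq : C κ * ((1 - X) * derivative ℂ (sA κ r)) = sW κ r - sA κ r := by
  ext n
  rw [coeff_C_mul, sub_mul, one_mul, map_sub, coeff_XD, coeff_derivative, sA, sW, map_sub, coeff_mk,
    coeff_mk, coeff_mk]
  have h1 := hA_rec κ r hκ hκr n
  have h2 := hW_rec κ r hκr n
  linear_combination h1 - h2

include hκ hκr in
lemma sW_eq : C κ * (X * ((1 - X) * derivative ℂ (sW κ r))) + C r * ((1 - X) * sW κ r) =
    sA κ r - X * sW κ r := by
  ext n
  cases n with
  | zero =>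
    have h2 := hW_rec κ r hκr 0
    simp only [map_add, map_sub, coeff_C_mul, coeff_zero_X_mul, sub_mul, one_mul, sA, sW, coeff_mk]
    simp only [Nat.cast_zero, mul_zero, zero_add, sub_zero, one_mul] at h2
    linear_combination h2
  | succ n =>
    simp only [map_add, map_sub, coeff_C_mul, coeff_succ_X_mul, sub_mul, one_mul, sA, sW, coeff_mk]
    rw [coeff_XD, coeff_derivative, coeff_mk, coeff_mk]
    have h1 := hA_rec κ r hκ hκr n
    have h2 := hW_rec κ r hκr (n + 1)
    push_cast at h2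
    linear_combination h2 - h1

include hκ hκr in
lemma pA_eq : C κ * ((1 - X) * derivative ℂ (sC κ * sA κ r)) =
    C (1 / 2 : ℂ) * (sC κ * sA κ r) + sC κ * sW κ r := by
  rw [Derivation.leibniz, smul_eq_mul, smul_eq_mul]
  have h1 := sC_eq κ hκ
  have h2 := sA_eq κ r hκ hκr
  have h3 : C (3 / 2 : ℂ) = C (1 / 2 : ℂ) + 1 := by
    rw [← map_one (C (R := ℂ)), ← map_add]; norm_num
  rw [h3] at h1
  linear_combination sA κ r * h1 + sC κ * h2

include hκ hκr in
lemma pW_eq : C κ * (X * ((1 - X) * derivative ℂ (sC κ * sW κ r))) +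
    C r * ((1 - X) * (sC κ * sW κ r)) =
    sC κ * sA κ r + C (1 / 2 : ℂ) * (X * (sC κ * sW κ r)) := by
  rw [Derivation.leibniz, smul_eq_mul, smul_eq_mul]
  have h1 := sC_eq κ hκ
  have h2 := sW_eq κ r hκ hκr
  have h3 : C (3 / 2 : ℂ) = C (1 / 2 : ℂ) + 1 := by
    rw [← map_one (C (R := ℂ)), ← map_add]; norm_num
  rw [h3] at h1
  linear_combination X * sW κ r * h1 + sC κ * h2

/-- The solution of the recursion. -/
theorem rec_solution (A W : ℕ → ℂ) (hA0 : A 0 = 1)
    (hκ : ∀ N : ℕ, κ * ((N : ℂ) + 1) ≠ 0) (hκr : ∀ N : ℕ, κ * (N : ℂ) + r ≠ 0)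
    (HA : ∀ N : ℕ, (κ * ((N : ℂ) + 1)) * A (N + 1) = ∑ j ∈ range (N + 1), (2⁻¹ * A j + W j))
    (HW : ∀ N : ℕ, (κ * (N : ℂ) + r) * W N = ∑ j ∈ range (N + 1), A j +
      2⁻¹ * ∑ j ∈ range N, W j) (N : ℕ) :
    A N = coeff N (sC κ * sA κ r) ∧ W N = coeff N (sC κ * sW κ r) := by
  have dA : ∀ N : ℕ, κ * ((N : ℂ) + 1) * A (N + 1) = (κ * N + 2⁻¹) * A N + W N := by
    intro N
    cases N with
    | zero => rw [HA 0]; simp
    | succ N =>
      rw [HA (N + 1), sum_range_succ, ← HA N]
      push_cast; ring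
  have dW : ∀ N : ℕ, (κ * ((N : ℂ) + 1) + r) * W (N + 1) =
      (κ * N + r + 2⁻¹) * W N + A (N + 1) := by
    intro N
    have h1 := HW (N + 1)
    push_cast at h1
    rw [h1, sum_range_succ A (N + 1), sum_range_succ W N]
    linear_combination -HW N
  have eA : ∀ n : ℕ, κ * ((n : ℂ) + 1) * coeff (n + 1) (sC κ * sA κ r) =
      (κ * n + 2⁻¹) * coeff n (sC κ * sA κ r) + coeff n (sC κ * sW κ r) := by
    intro n
    have h := congrArg (coeff n) (pA_eq κ r hκ hκr)
    rw [coeff_C_mul, sub_mul, one_mul, map_sub, coeff_XD, coeff_derivative, map_add,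
      coeff_C_mul] at h
    linear_combination h
  have eW : ∀ n : ℕ, (κ * ((n : ℂ) + 1) + r) * coeff (n + 1) (sC κ * sW κ r) =
      (κ * n + r + 2⁻¹) * coeff n (sC κ * sW κ r) + coeff (n + 1) (sC κ * sA κ r) := by
    intro n
    have h := congrArg (coeff (n + 1)) (pW_eq κ r hκ hκr)
    simp only [map_add, map_sub, coeff_C_mul, coeff_succ_X_mul, sub_mul, one_mul] at h
    rw [coeff_XD, coeff_derivative] at h
    linear_combination h
  have eW0 : r * coeff 0 (sC κ * sW κ r) = coeff 0 (sC κ * sA κ r) := by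
    have h := congrArg (coeff 0) (pW_eq κ r hκ hκr)
    simp only [map_add, map_sub, coeff_C_mul, coeff_zero_X_mul, sub_mul, one_mul] at h
    linear_combination h
  have h00 : coeff 0 (sC κ * sA κ r) = 1 := by
    rw [coeff_zero_eq_constantCoeff, map_mul]
    simp [sC, sA, cc, hA, ← coeff_zero_eq_constantCoeff_apply]
  have hr : r ≠ 0 := by simpa using hκr 0
  induction N with
  | zero =>
    refine ⟨by rw [hA0, h00], ?_⟩
    have h1 := HW 0
    simp only [Nat.cast_zero, mul_zero, zero_add, range_one, sum_singleton, range_zero, sum_empty,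
      add_zero, hA0] at h1
    exact mul_left_cancel₀ hr (by rw [h1, eW0, h00])
  | succ N ih =>
    have h1 : A (N + 1) = coeff (N + 1) (sC κ * sA κ r) :=
      mul_left_cancel₀ (hκ N) (by rw [dA, eA, ih.1, ih.2])
    refine ⟨h1, ?_⟩
    have h2 := hκr (N + 1)
    push_cast at h2
    exact mul_left_cancel₀ h2 (by rw [dW, eW, ih.2, h1])

end solution

/-- The value at the index `n` with `κ n + r = p` has a `p` in the denominator. -/
theorem unit_solution {p κ r n : ℕ} (hp : p.Prime) (hpn : p = κ * n + r) (hn : 1 ≤ n)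
    (hκ3 : 3 ≤ κ) (hr2 : 2 ≤ r) (A W : ℕ → ℂ) (hA0 : A 0 = 1)
    (HA : ∀ N : ℕ, ((κ : ℂ) * ((N : ℂ) + 1)) * A (N + 1) = ∑ j ∈ range (N + 1), (2⁻¹ * A j + W j))
    (HW : ∀ N : ℕ, ((κ : ℂ) * (N : ℂ) + r) * W N = ∑ j ∈ range (N + 1), A j +
      2⁻¹ * ∑ j ∈ range N, W j) : PUnit' p ((p : ℂ) * W n) := by
  have hκn : κ ≤ κ * n := by nlinarith
  have hnp : n < p := by nlinarith
  have hκ0 : ∀ N : ℕ, (κ : ℂ) * ((N : ℂ) + 1) ≠ 0 := by
    intro N
    have : κ * (N + 1) ≠ 0 := by positivity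
    exact_mod_cast this
  have hκr0 : ∀ N : ℕ, (κ : ℂ) * (N : ℂ) + (r : ℂ) ≠ 0 := by
    intro N
    have : κ * N + r ≠ 0 := by positivity
    exact_mod_cast this
  have hsmall : ∀ a : ℕ, 0 < a → a < p → PUnit' p (a : ℂ) := by
    intro a ha hap
    have := PUnit'.small hp (n := (a : ℤ)) (by omega) (by rw [abs_of_pos (by omega)]; omega)
    simpa using this
  have hcc : ∀ j ≤ n, PInt p (cc κ j) := by
    intro j
    induction j with
    | zero => intro _; exact PInt.one hp
    | succ j ih =>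
      intro hj
      rw [cc]
      refine PInt.mul hp (PInt.mul hp ?_ ?_) (ih (by omega))
      · have := PInt.int hp (2 * κ * j + 3)
        push_cast at this
        exact this
      · refine (PUnit'.inv hp (PUnit'.mul hp ?_ (PUnit'.mul hp ?_ ?_))).pint
        · exact_mod_cast hsmall 2 (by norm_num) (by omega)
        · exact hsmall κ (by omega) (by omega)
        · exact_mod_cast hsmall (j + 1) (by omega) (by omega)
  have hhA : ∀ N ≤ n, PUnit' p (hA κ r N) := by
    intro N
    induction N with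
    | zero => intro _; exact PUnit'.one hp
    | succ N ih =>
      intro hN
      have hlt : κ * N + κ ≤ κ * n := by nlinarith
      rw [hA]
      refine PUnit'.mul hp (PUnit'.mul hp (PUnit'.mul hp ?_ ?_) (PUnit'.inv hp
        (PUnit'.mul hp (PUnit'.mul hp ?_ ?_) ?_))) (ih (by omega))
      · have := hsmall (κ * N + r - 1) (by omega) (by omega)
        rw [Nat.cast_sub (by omega)] at this
        push_cast at this
        exact this
      · have := PUnit'.small hp (n := (κ * N : ℤ) - 1) (by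
          intro h0
          have h1 : (κ : ℤ) * N = 1 := by omega
          have h2 : κ * N = 1 := by exact_mod_cast h1
          have h3 : κ = 1 := Nat.eq_one_of_mul_eq_one_right h2
          omega) (by
          rw [abs_lt]
          have h1 : (κ : ℤ) * N = ((κ * N : ℕ) : ℤ) := by push_cast; ring
          rw [h1]
          omega)
        push_cast at this
        exact this
      · exact hsmall κ (by omega) (by omega)
      · exact_mod_cast hsmall (N + 1) (by omega) (by omega)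
      · exact_mod_cast hsmall (κ * N + r) (by omega) (by omega)
  have hpC : (p : ℂ) = κ * n + r := by rw [hpn]; push_cast; ring
  have h1 : PUnit' p ((p : ℂ) * hW κ r n) := by
    rw [hpC, hW_rec κ r hκr0 n]
    refine PUnit'.mul hp ?_ (hhA n le_rfl)
    have := PUnit'.small hp (n := 1 - (κ * n : ℤ)) (by
      intro h0
      have h1 : (κ : ℤ) * n = 1 := by omega
      have h2 : κ * n = 1 := by exact_mod_cast h1
      omega) (by
      rw [abs_lt]
      have h1 : (κ : ℤ) * n = ((κ * n : ℕ) : ℤ) := by push_cast; ring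
      rw [h1]
      omega)
    push_cast at this
    exact this
  have h2 : ∀ N < n, PInt p (hW κ r N) := by
    intro N hN
    have hlt : κ * N + κ ≤ κ * n := by nlinarith
    rw [hW]
    refine PInt.mul hp (PInt.mul hp ?_ (PUnit'.inv hp ?_).pint) (hhA N (by omega)).pint
    · have := PInt.int hp (1 - κ * N)
      push_cast at this
      exact this
    · exact_mod_cast hsmall (κ * N + r) (by omega) (by omega)
  rw [(rec_solution κ r A W hA0 hκ0 hκr0 HA HW n).2, PowerSeries.coeff_mul]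
  obtain ⟨m, rfl⟩ : ∃ m, n = m + 1 := ⟨n - 1, by omega⟩
  rw [Finset.Nat.sum_antidiagonal_succ]
  simp only [sC, sW, PowerSeries.coeff_mk]
  rw [mul_add, cc, one_mul]
  refine PUnit'.add_mul hp h1 (PInt.sum hp _ _ fun x hx => ?_)
  have hx' := mem_antidiagonal.mp hx
  exact PInt.mul hp (hcc _ (by omega)) (h2 _ (by omega))

end Pool.Agent.KS6_30.Affine
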