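import Pool.Agent.KS6_30.Weyl.Pair
import Pool.Agent.KS6_30.Weyl.Num
import Pool.Agent.KS6_30.Weyl.Crit

/-!
Reducible Weyl modules of every level.
-/

set_option autoImplicit false

namespace Pool.Agent.KS6_30.Affine

open Finset

/-! ### Integrality of combinations of words -/

/-- All coefficients are integral at `p`. -/
def PT (p : ℕ) (t : T) : Prop := ∀ J, PInt p (t J)

section pt

variable {p : ℕ} (hp : p.Prime)

include hp in
lemma PT.add {x y : T} (hx : PT p x) (hy : PT p y) : PT p (x + y) :=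
  fun J => by rw [Finsupp.add_apply]; exact PInt.add hp (hx J) (hy J)

include hp in
lemma PT.zero : PT p 0 := fun _ => PInt.zero hp

include hp in
lemma PT.smul {c : ℂ} {x : T} (hc : PInt p c) (hx : PT p x) : PT p (c • x) :=
  fun J => by rw [Finsupp.smul_apply, smul_eq_mul]; exact PInt.mul hp hc (hx J)

include hp in
lemma PT.sub {x y : T} (hx : PT p x) (hy : PT p y) : PT p (x - y) :=
  fun J => by rw [Finsupp.sub_apply]; exact PInt.sub hp (hx J) (hy J)

include hp in
lemma PT.neg {x : T} (hx : PT p x) : PT p (-x) :=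
  fun J => by rw [Finsupp.neg_apply]; exact PInt.neg hp (hx J)

include hp in
lemma PT.sum {ι : Type*} (s : Finset ι) (f : ι → T) (h : ∀ i ∈ s, PT p (f i)) :
    PT p (∑ i ∈ s, f i) := by
  classical
  induction s using Finset.induction_on with
  | empty => rw [sum_empty]; exact PT.zero hp
  | insert i s hi ih =>
    rw [sum_insert hi]
    exact PT.add hp (h i (mem_insert_self _ _)) (ih fun j hj => h j (mem_insert_of_mem hj))

/-- Operators preserving integrality. -/
def PO (p : ℕ) (A : Module.End ℂ T) : Prop := ∀ x, PT p x → PT p (A x)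

include hp in
lemma PO.Fe (i : Fin 2) : PO p (Affine.Fe i) := by
  intro x hx J
  cases J with
  | nil =>
    have : Affine.Fe i x [] = 0 := fT_coeff_nil i x
    rw [this]; exact PInt.zero hp
  | cons j J =>
    have : Affine.Fe i x (j :: J) = if i = j then x J else 0 := fT_coeff i j J x
    rw [this]
    split_ifs
    · exact hx J
    · exact PInt.zero hp

include hp in
lemma PO.cm {A B : Module.End ℂ T} (hA : PO p A) (hB : PO p B) : PO p (cm A B) := by
  intro x hx
  rw [cm_apply]
  exact PT.sub hp (hA _ (hB _ hx)) (hB _ (hA _ hx))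

variable (h2 : PInt p 2⁻¹)

include hp h2 in
lemma PO.TE (k : ℕ) : PO p (Affine.TE k) := by
  induction k with
  | zero => exact PO.Fe hp 0
  | succ k ih =>
    intro x hx
    exact PT.smul hp h2 (PO.cm hp (PO.cm hp (PO.Fe hp 0) (PO.Fe hp 1)) ih x hx)

include hp h2 in
lemma PO.TF (k : ℕ) : PO p (Affine.TF k) := by
  induction k with
  | zero => exact PO.Fe hp 1
  | succ k ih =>
    intro x hx
    exact PT.neg hp (PT.smul hp h2 (PO.cm hp (PO.cm hp (PO.Fe hp 0) (PO.Fe hp 1)) ih x hx))

include hp h2 in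
lemma PO.TH (k : ℕ) : PO p (Affine.TH k) := PO.cm hp (PO.TE hp h2 k) (PO.Fe hp 1)

include hp h2 in
lemma PT_aw (κ r : ℂ) (n : ℕ) (hκ : ∀ N < n, PInt p (κ * ((N : ℂ) + 1))⁻¹)
    (hκr : ∀ N < n, PInt p (κ * (N : ℂ) + r)⁻¹) :
    ∀ N ≤ n, PT p (aT κ r N) ∧ (N < n → PT p (wT κ r N)) := by
  intro N
  induction N using Nat.strong_induction_on with
  | _ N ih =>
  intro hN
  have hA : PT p (aT κ r N) := by
    cases N with
    | zero =>
      rw [aT_zero]
      intro J
      rw [Finsupp.single_apply]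
      split_ifs
      · exact PInt.one hp
      · exact PInt.zero hp
    | succ M =>
      rw [aT_succ]
      refine PT.smul hp (hκ M (by omega)) (PT.sum hp _ _ fun j hj => ?_)
      have hj' := mem_range.mp hj
      obtain ⟨b1, b2⟩ := ih j hj' (by omega)
      exact PT.add hp (PT.smul hp h2 (PO.TH hp h2 _ _ b1)) (PO.TE hp h2 _ _ (b2 (by omega)))
  refine ⟨hA, fun hNn => ?_⟩
  cases N with
  | zero =>
    rw [wT_zero]
    have h0 := hκr 0 hNn
    simp only [Nat.cast_zero, mul_zero, zero_add] at h0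
    exact PT.smul hp h0 (PO.TF hp h2 _ _ hA)
  | succ M =>
    rw [wT_succ]
    have h0 := hκr (M + 1) hNn
    push_cast at h0
    refine PT.smul hp h0 (PT.add hp (PO.TF hp h2 _ _ hA) (PT.sum hp _ _ fun j hj => ?_))
    have hj' := mem_range.mp hj
    obtain ⟨b1, b2⟩ := ih j hj' (by omega)
    exact PT.sub hp (PO.TF hp h2 _ _ b1) (PT.smul hp h2 (PO.TH hp h2 _ _ (b2 (by omega))))

include hp in
lemma common_den (t : T) (ht : PT p t) : ∃ D : ℤ, ¬ (p : ℤ) ∣ D ∧ IntT ((D : ℂ) • t) := by
  classical
  have key : ∀ s : Finset (List (Fin 2)), ∃ D : ℤ, ¬ (p : ℤ) ∣ D ∧ ∀ J ∈ s, ∃ m : ℤ,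
      (D : ℂ) * t J = m := by
    intro s
    induction s using Finset.induction_on with
    | empty => exact ⟨1, not_dvd_one hp, by simp⟩
    | insert J s _ ih =>
      obtain ⟨D, hD, h⟩ := ih
      obtain ⟨D', m', hD', h'⟩ := ht J
      refine ⟨D * D', not_dvd_mul hp hD hD', fun K hK => ?_⟩
      rcases mem_insert.mp hK with rfl | hK
      · exact ⟨D * m', by push_cast; rw [← h']; ring⟩
      · obtain ⟨m, hm⟩ := h K hK
        exact ⟨D' * m, by push_cast; rw [← hm]; ring⟩
  obtain ⟨D, hD, h⟩ := key t.support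
  refine ⟨D, hD, fun J => ?_⟩
  rw [Finsupp.smul_apply, smul_eq_mul]
  by_cases hJ : J ∈ t.support
  · exact h J hJ
  · rw [Finsupp.notMem_support_iff.mp hJ]
    exact ⟨0, by simp⟩

end pt

lemma count_altA (N : ℕ) : (altA N).count 0 = N ∧ (altA N).count 1 = N := by
  induction N with
  | zero => simp [altA]
  | succ N ih =>
    rw [altA, List.count_cons_self, List.count_cons_of_ne (by decide), List.count_cons_of_ne
      (by decide), List.count_cons_self, ih.1, ih.2]
    exact ⟨rfl, rfl⟩

/-- The main case: `p = (ℓ + 2) n + r` with `n ≥ 1` and `2 ≤ r ≤ ℓ`. -/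
theorem reducible_main {ℓ p r n : ℕ} (hp : p.Prime) (hpn : p = (ℓ + 2) * n + r) (hn : 1 ≤ n)
    (hr2 : 2 ≤ r) (hrℓ : r ≤ ℓ) (F : Type*) [Field F] [CharP F p] :
    ¬ IsIrreducible F (weight ℓ r) := by
  set κ : ℕ := ℓ + 2 with hκdef
  set lam : Fin 2 → ℤ := lz (weight ℓ r) with hlam
  have l0 : lam 0 = (ℓ : ℤ) - r := by
    rw [hlam]; simp only [lz, weight, if_true]; push_cast [Nat.cast_sub hrℓ]; rfl
  have l1 : lam 1 = (r : ℤ) := by
    rw [hlam]; simp [lz, weight]
  have hκC : (κ : ℂ) = (lam 0 : ℂ) + lam 1 + 2 := by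
    rw [l0, l1, hκdef]; push_cast; ring
  have hrC : (r : ℂ) = (lam 1 : ℂ) := by rw [l1]; push_cast; rfl
  have hκ0 : ∀ N : ℕ, (κ : ℂ) * ((N : ℂ) + 1) ≠ 0 := by
    intro N
    have : κ * (N + 1) ≠ 0 := by positivity
    exact_mod_cast this
  have hκr0 : ∀ N : ℕ, (κ : ℂ) * (N : ℂ) + (r : ℂ) ≠ 0 := by
    intro N
    have : κ * N + r ≠ 0 := by positivity
    exact_mod_cast this
  have hκn : κ ≤ κ * n := by nlinarith
  have hnp : n + 1 < p := by nlinarith
  have hsmall : ∀ a : ℕ, 0 < a → a < p → PUnit' p (a : ℂ) := by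
    intro a ha hap
    have := PUnit'.small hp (n := (a : ℤ)) (by omega) (by rw [abs_of_pos (by omega)]; omega)
    simpa using this
  have h2 : PInt p (2⁻¹ : ℂ) := by
    have := (PUnit'.inv hp (hsmall 2 (by norm_num) (by omega))).pint
    exact_mod_cast this
  have hPT := PT_aw hp h2 (κ : ℂ) (r : ℂ) n
    (fun N hN => by
      refine (PUnit'.inv hp (PUnit'.mul hp (hsmall κ (by omega) (by omega)) ?_)).pint
      exact_mod_cast hsmall (N + 1) (by omega) (by omega))
    (fun N hN => by
      have hlt : κ * N + κ ≤ κ * n := by nlinarith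
      refine (PUnit'.inv hp ?_).pint
      exact_mod_cast hsmall (κ * N + r) (by omega) (by omega))
  have hpC : (p : ℂ) = κ * n + r := by rw [hpn]; push_cast; ring
  -- the integral vector
  have hw : PT p ((p : ℂ) • wT κ r n) := by
    rw [hpC, recW _ _ hκr0]
    refine PT.sub hp (PT.sum hp _ _ fun j hj => ?_) (PT.smul hp h2 (PT.sum hp _ _ fun j hj => ?_))
    · exact PO.TF hp h2 _ _ (hPT j (by have := mem_range.mp hj; omega)).1
    · exact PO.TH hp h2 _ _ ((hPT j (by have := mem_range.mp hj; omega)).2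
        (mem_range.mp hj))
  obtain ⟨D, hD, hDt⟩ := common_den hp _ hw
  set t : T := (D : ℂ) • ((p : ℂ) • wT κ r n) with htdef
  have hpair : ∀ J, pW lam J t = if J = altW n then ((D : ℂ) * p) else 0 := by
    intro J
    rw [htdef, map_smul, map_smul, (pW_aw κ r lam hκC hrC hκ0 hκr0 J n).2, smul_eq_mul, smul_eq_mul]
    split_ifs <;> ring
  obtain ⟨m, hm⟩ := hDt (altW n)
  have hmn : (m : ℂ) = D * ((p : ℂ) * nW κ r n) := by
    rw [← hm, htdef, Finsupp.smul_apply, Finsupp.smul_apply, smul_eq_mul, smul_eq_mul]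
    rfl
  have hB : B lam t t = ((p : ℕ) : ℂ) * ((D * m : ℤ) : ℂ) := by
    have h1 : B lam t t = (D : ℂ) * ((p : ℂ) * t (altW n)) := by
      conv_lhs => rw [htdef]
      rw [map_smul, map_smul, B_wT κ r lam hκC hrC hκ0 hκr0 n]
      rfl
    rw [h1, hm]
    push_cast
    ring
  have hunit := unit_solution hp hpn hn (by omega) hr2 (nA κ r) (nW κ r) (nA_zero κ r)
    (fun N => nA_rec _ _ hκ0 N) (fun N => nW_rec _ _ hκr0 N)
  have hpm : ¬ (p : ℤ) ∣ D * m := by
    refine not_dvd_mul hp hD fun hdm => ?_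
    obtain ⟨D2, m2, g1, g2, g3⟩ := hunit
    have h3 : D2 * m = D * m2 := by
      have : (D2 : ℂ) * m = D * m2 := by rw [hmn, ← g3]; ring
      exact_mod_cast this
    exact not_dvd_mul hp hD g2 (h3 ▸ dvd_mul_of_dvd_right hdm D2)
  refine reducible hp t hDt ?_ ?_ (D * m) hB hpm F
  · intro i
    have hi : i = 0 ∨ i = 1 := by omega
    rcases hi with rfl | rfl
    · refine ⟨lam 0 - (-2), ?_⟩
      have h := (wt_aw (κ : ℂ) (r : ℂ) lam 0 (-2) (by rw [relT_hf]; norm_num [cartan])
        (by rw [relT_hf]; norm_num [cartan]) n).2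
      change hT lam 0 _ = _ at h
      rw [htdef, map_smul, map_smul, h]
      push_cast
      module
    · refine ⟨lam 1 - 2, ?_⟩
      have h := (wt_aw (κ : ℂ) (r : ℂ) lam 1 2 (by rw [relT_hf]; norm_num [cartan])
        (by rw [relT_hf]; norm_num [cartan]) n).2
      change hT lam 1 _ = _ at h
      rw [htdef, map_smul, map_smul, h]
      push_cast
      module
  · intro J
    rw [← hlam, hpair]
    split_ifs with hJ
    · right
      subst hJ
      refine ⟨?_, ?_, D, by push_cast; ring⟩
      · rw [altW, List.count_cons_of_ne (by decide), (count_altA n).1]; omega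
      · rw [altW, List.count_cons_self, (count_altA n).2]; omega
    · exact Or.inl rfl

/-- The case `p = r ≤ ℓ`. -/
theorem reducible_small {ℓ p : ℕ} (hp : p.Prime) (_hpℓ : p ≤ ℓ) (F : Type*) [Field F] [CharP F p] :
    ¬ IsIrreducible F (weight ℓ p) := by
  set lam : Fin 2 → ℤ := lz (weight ℓ p) with hlam
  have l1 : lam 1 = (p : ℤ) := by rw [hlam]; simp [lz, weight]
  set v : T := Finsupp.single [] 1 with hv
  have hh : hT lam 1 v = (p : ℂ) • v := by
    rw [hT, hv, gT_single, l1]; simp [ev]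
  have he : ∀ i, eT lam i (fT 1 v) = if i = 1 then (p : ℂ) • v else 0 := by
    intro i
    rw [eT_fT, hv, eT_nil, map_zero, zero_add]
    split_ifs with hi
    · subst hi; exact hh
    · rfl
  have hpair : ∀ J, pW lam J (fT 1 v) = if J = [1] then (p : ℂ) else 0 := by
    intro J
    cases J with
    | nil => rw [pW_nil, eps0_fT]; simp
    | cons i J =>
      rw [pW_cons, he]
      by_cases hi : i = 1
      · subst hi
        rw [if_pos rfl, map_smul]
        cases J with
        | nil => rw [pW_nil, hv, eps0_nil]; simp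
        | cons j J => rw [pW_cons, hv, eT_nil, map_zero]; simp
      · rw [if_neg hi, map_zero]; simp [hi]
  have ht : fT 1 v = Finsupp.single [1] 1 := by rw [hv, fT_single]
  refine reducible hp (fT 1 v) ?_ ?_ ?_ 1 ?_ (not_dvd_one hp) F
  · intro J
    rw [ht, Finsupp.single_apply]
    split_ifs
    · exact ⟨1, by simp⟩
    · exact ⟨0, by simp⟩
  · intro i
    refine ⟨lam i - cartan i 1, ?_⟩
    rw [← hlam, hT, ht, gT_single]
    congr 1
    simp [ev]
  · intro J
    rw [← hlam, hpair]
    split_ifs with hJ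
    · right
      subst hJ
      refine ⟨?_, ?_, 1, by push_cast; ring⟩
      · simp [hp.pos]
      · simpa using hp.one_lt
    · exact Or.inl rfl
  · rw [← hlam]
    nth_rewrite 1 [ht]
    rw [B_single, hpair]; simp

/-- The case `p = ℓ + 2`. -/
theorem reducible_crit {ℓ p : ℕ} (hp : p.Prime) (hpℓ : p = ℓ + 2) (h5 : 5 ≤ p) (F : Type*)
    [Field F] [CharP F p] : ¬ IsIrreducible F (weight ℓ 1) := by
  set lam : Fin 2 → ℤ := lz (weight ℓ 1) with hlam
  have l1 : lam 1 = 1 := by rw [hlam]; simp [lz, weight]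
  have l0 : lam 0 = (p : ℤ) - 3 := by
    rw [hlam]; simp only [lz, weight, if_true]; omega
  set v : T := Finsupp.single [] 1 with hv
  set t : T := (3 : ℂ) • fT 0 (fT 1 v) - fT 1 (fT 0 v) with ht
  have hh : ∀ i, hT lam i v = (lam i : ℂ) • v := by
    intro i
    rw [hT, hv, gT_single]; simp [ev]
  have hf : ∀ i j, hT lam i (fT j v) = ((lam i : ℂ) - cartan i j) • fT j v := by
    intro i j
    rw [hT, gT_fT]
    have := hh i
    rw [hT] at this
    rw [this, map_smul]; module
  have hev : ∀ i, eT lam i v = 0 := by intro i; rw [hv, eT_nil]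
  have he0 : eT lam 0 t = ((2 * p : ℕ) : ℂ) • fT 1 v := by
    rw [ht, map_sub, map_smul]
    simp only [eT_fT, hev, map_zero, hh, hf, map_smul, zero_add, if_true, add_zero,
      show ((0 : Fin 2) = 1) = False from by simp, if_false, l0]
    rw [show cartan 0 1 = -2 from by simp [cartan]]
    push_cast
    module
  have he1 : eT lam 1 t = 0 := by
    rw [ht, map_sub, map_smul]
    simp only [eT_fT, hev, map_zero, hh, hf, map_smul, zero_add, if_true, add_zero,
      show ((1 : Fin 2) = 0) = False from by simp, if_false, l1]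
    rw [show cartan 1 0 = -2 from by simp [cartan]]
    push_cast
    module
  have hpair1 : ∀ J, pW lam J (fT 1 v) = if J = [1] then 1 else 0 := by
    intro J
    cases J with
    | nil => rw [pW_nil, eps0_fT]; simp
    | cons i J =>
      rw [pW_cons, eT_fT, hev, map_zero, zero_add]
      by_cases hi : i = 1
      · subst hi
        rw [if_pos rfl, hh, map_smul, l1]
        cases J with
        | nil => rw [pW_nil, hv, eps0_nil]; simp
        | cons j J => rw [pW_cons, hev, map_zero]; simp
      · rw [if_neg hi, map_zero]; simp [hi]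
  have hpair : ∀ J, pW lam J t = if J = [0, 1] then ((2 * p : ℕ) : ℂ) else 0 := by
    intro J
    cases J with
    | nil => rw [pW_nil, ht, map_sub, map_smul, eps0_fT, eps0_fT]; simp
    | cons i J =>
      rw [pW_cons]
      have hi : i = 0 ∨ i = 1 := by omega
      rcases hi with rfl | rfl
      · rw [he0, map_smul, hpair1]
        by_cases hJ : J = [1]
        · subst hJ; simp
        · simp [hJ]
      · rw [he1, map_zero]; simp
  have htT : t = Finsupp.single [0, 1] (3 : ℂ) - Finsupp.single [1, 0] 1 := by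
    rw [ht, hv, fT_single, fT_single, fT_single, fT_single, Finsupp.smul_single]; simp
  have h6 : ¬ (p : ℤ) ∣ 6 := by
    intro h
    have h7 : p ∣ 6 := by exact_mod_cast h
    have h8 := Nat.le_of_dvd (by norm_num) h7
    have h9 : p = 5 ∨ p = 6 := by omega
    rcases h9 with h9 | h9
    · rw [h9] at h7; norm_num at h7
    · rw [h9] at hp; norm_num at hp
  refine reducible hp t ?_ ?_ ?_ 6 ?_ h6 F
  · intro J
    rw [htT, Finsupp.sub_apply, Finsupp.single_apply, Finsupp.single_apply]
    split_ifs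
    · exact ⟨2, by norm_num⟩
    · exact ⟨3, by norm_num⟩
    · exact ⟨-1, by norm_num⟩
    · exact ⟨0, by norm_num⟩
  · intro i
    refine ⟨lam i - cartan i 0 - cartan i 1, ?_⟩
    rw [← hlam, hT, htT, map_sub, gT_single, gT_single, smul_sub]
    congr 1
    · congr 1
      simp [ev]; ring
    · congr 1
      simp [ev]; ring
  · intro J
    rw [← hlam, hpair]
    split_ifs with hJ
    · right
      subst hJ
      refine ⟨?_, ?_, 2, by push_cast; ring⟩
      · simpa using hp.one_lt
      · simpa using hp.one_lt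
    · exact Or.inl rfl
  · rw [← hlam]
    have h7 : B lam t t = B lam (Finsupp.single [0, 1] (3 : ℂ) - Finsupp.single [1, 0] 1) t := by
      rw [← htT]
    rw [h7, LinearMap.map_sub₂, B_single, B_single, hpair, hpair]
    simp
    ring

end Pool.Agent.KS6_30.Affine
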