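import Pool.Agent.KS6_30.Weyl.Seq

/-!
The pairing of the vectors with the words, and the numbers `(w_N, w_N)`.
-/

set_option autoImplicit false

namespace Pool.Agent.KS6_30.Affine

open Finset

/-- The alternating word `f_0 f_1 ... f_0 f_1` of length `2 N`. -/
def altA : ℕ → List (Fin 2)
  | 0 => []
  | N + 1 => 0 :: 1 :: altA N

/-- The alternating word `f_1 f_0 f_1 ... f_1` of length `2 N + 1`. -/
def altW (N : ℕ) : List (Fin 2) := 1 :: altA N

lemma altA_succ (N : ℕ) : altA (N + 1) = 0 :: altW N := rfl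

lemma altW_eq (N : ℕ) : altW N = 1 :: altA N := rfl

/-! ### The functional `eps0` -/

lemma eps0_Fe (i : Fin 2) (x : T) : eps0 (Fe i x) = 0 := eps0_fT i x

lemma eps0_cm {A B : Module.End ℂ T} (hA : ∀ x, eps0 (A x) = 0) (hB : ∀ x, eps0 (B x) = 0) (x : T) :
    eps0 (cm A B x) = 0 := by
  rw [cm_apply, map_sub, hA, hB, sub_zero]

lemma eps0_TE (k : ℕ) (x : T) : eps0 (TE k x) = 0 := by
  induction k generalizing x with
  | zero => exact eps0_Fe 0 x
  | succ k ih =>
    have h1 : eps0 (cm (cm (Fe 0) (Fe 1)) (LE (Fe 0) (Fe 1) k) x) = 0 :=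
      eps0_cm (eps0_cm (eps0_Fe 0) (eps0_Fe 1)) ih x
    rw [TE, LE, LinearMap.smul_apply, map_smul, h1, smul_zero]

lemma eps0_TF (k : ℕ) (x : T) : eps0 (TF k x) = 0 := by
  induction k generalizing x with
  | zero => exact eps0_Fe 1 x
  | succ k ih =>
    have h1 : eps0 (cm (cm (Fe 0) (Fe 1)) (LF (Fe 0) (Fe 1) k) x) = 0 :=
      eps0_cm (eps0_cm (eps0_Fe 0) (eps0_Fe 1)) ih x
    rw [TF, LF, LinearMap.neg_apply, LinearMap.smul_apply, map_neg, map_smul, h1, smul_zero,
      neg_zero]

lemma eps0_TH (k : ℕ) (x : T) : eps0 (TH k x) = 0 := eps0_cm (eps0_TE k) (eps0_Fe 1) x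

section pairing

variable (κ r : ℂ)

lemma eps0_aT (N : ℕ) : eps0 (aT κ r N) = if N = 0 then 1 else 0 := by
  cases N with
  | zero => rw [aT_zero, eps0_nil]; simp
  | succ M =>
    rw [aT_succ, map_smul, map_sum, if_neg (Nat.succ_ne_zero M)]
    rw [sum_eq_zero fun j _ => ?_, smul_zero]
    rw [map_add, map_smul, eps0_TH, eps0_TE, smul_zero, add_zero]

lemma eps0_wT (N : ℕ) : eps0 (wT κ r N) = 0 := by
  cases N with
  | zero => rw [wT_zero, map_smul, eps0_TF, smul_zero]
  | succ M =>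
    rw [wT_succ, map_smul, map_add, map_sum, eps0_TF]
    rw [sum_eq_zero fun j _ => ?_, add_zero, smul_zero]
    rw [map_sub, map_smul, eps0_TH, eps0_TF, smul_zero, sub_zero]

variable (lam : Fin 2 → ℤ)

lemma pW_congr (J : List (Fin 2)) {x y : T} (h : mkW lam x = mkW lam y) :
    pW lam J x = pW lam J y := by
  have h1 : x - y ∈ RadT lam := (Submodule.Quotient.eq (RadT lam)).mp h
  have h2 := h1 J
  rw [map_sub] at h2
  exact sub_eq_zero.mp h2

/-- The pairing of the vectors with the words. -/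
theorem pW_aw (hκ : κ = (lam 0 : ℂ) + lam 1 + 2) (hr : r = (lam 1 : ℂ))
    (hκ0 : ∀ N : ℕ, κ * ((N : ℂ) + 1) ≠ 0) (hκr : ∀ N : ℕ, κ * (N : ℂ) + r ≠ 0)
    (J : List (Fin 2)) : ∀ N, pW lam J (aT κ r N) = (if J = altA N then 1 else 0) ∧
      pW lam J (wT κ r N) = if J = altW N then 1 else 0 := by
  have K := (kz κ r lam hκ hr hκ0 hκr).main
  induction J with
  | nil =>
    intro N
    rw [pW_nil, pW_nil, eps0_aT, eps0_wT]
    constructor
    · cases N with
      | zero => simp [altA]
      | succ N => simp [altA]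
    · simp [altW]
  | cons i J ih =>
    intro N
    obtain ⟨K1, K2, K3, K4⟩ := K N
    have hi : i = 0 ∨ i = 1 := by omega
    rcases hi with rfl | rfl
    · constructor
      · rw [pW_cons]
        cases N with
        | zero => rw [aT_zero, eT_nil, map_zero]; simp [altA]
        | succ M =>
          rw [if_neg (Nat.succ_ne_zero M), Nat.add_sub_cancel] at K4
          have h1 : mkW lam (eT lam 0 (aT κ r (M + 1))) = mkW lam (wT κ r M) := K4
          rw [pW_congr lam J h1, (ih M).2, altA_succ]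
          simp
      · have h1 : mkW lam (eT lam 0 (wT κ r N)) = mkW lam 0 := by rw [map_zero]; exact K3
        rw [pW_cons, pW_congr lam J h1, map_zero, altW]
        simp
    · constructor
      · have h1 : mkW lam (eT lam 1 (aT κ r N)) = mkW lam 0 := by rw [map_zero]; exact K1
        rw [pW_cons, pW_congr lam J h1, map_zero]
        cases N with
        | zero => simp [altA]
        | succ M => simp [altA]
      · have h1 : mkW lam (eT lam 1 (wT κ r N)) = mkW lam (aT κ r N) := K2
        rw [pW_cons, pW_congr lam J h1, (ih N).1, altW]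
        simp

/-- The form paired with `w_N` is the coefficient of the alternating word. -/
theorem B_wT (hκ : κ = (lam 0 : ℂ) + lam 1 + 2) (hr : r = (lam 1 : ℂ))
    (hκ0 : ∀ N : ℕ, κ * ((N : ℂ) + 1) ≠ 0) (hκr : ∀ N : ℕ, κ * (N : ℂ) + r ≠ 0)
    (N : ℕ) (x : T) : B lam x (wT κ r N) = x (altW N) := by
  induction x using Finsupp.induction_linear with
  | zero => simp
  | add x y hx hy => rw [map_add, LinearMap.add_apply, hx, hy, Finsupp.add_apply]
  | single J a =>
    rw [B_single, (pW_aw κ r lam hκ hr hκ0 hκr J N).2, Finsupp.single_apply]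
    split_ifs <;> simp

end pairing

/-! ### Coefficients of alternating words -/

lemma fT_coeff (i j : Fin 2) (J : List (Fin 2)) (x : T) :
    fT i x (j :: J) = if i = j then x J else 0 := by
  induction x using Finsupp.induction_linear with
  | zero => simp
  | add x y hx hy =>
    rw [map_add, Finsupp.add_apply, Finsupp.add_apply, hx, hy]
    split_ifs <;> simp
  | single K a =>
    rw [fT_single, Finsupp.single_apply, Finsupp.single_apply]
    by_cases h1 : i = j
    · subst h1; simp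
    · simp [h1]

lemma fT_coeff_nil (i : Fin 2) (x : T) : fT i x [] = 0 := eps0_fT i x

/-- The generating function of the coefficients of the words `altA N`. -/
noncomputable def GA : T →ₗ[ℂ] PowerSeries ℂ where
  toFun x := PowerSeries.mk fun N => x (altA N)
  map_add' x y := by ext N; simp
  map_smul' a x := by ext N; simp

/-- The generating function of the coefficients of the words `altW N`. -/
noncomputable def GW : T →ₗ[ℂ] PowerSeries ℂ where
  toFun x := PowerSeries.mk fun N => x (altW N)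
  map_add' x y := by ext N; simp
  map_smul' a x := by ext N; simp

lemma coeff_GA (N : ℕ) (x : T) : PowerSeries.coeff N (GA x) = x (altA N) := by
  change PowerSeries.coeff N (PowerSeries.mk fun N => x (altA N)) = _
  rw [PowerSeries.coeff_mk]

lemma coeff_GW (N : ℕ) (x : T) : PowerSeries.coeff N (GW x) = x (altW N) := by
  change PowerSeries.coeff N (PowerSeries.mk fun N => x (altW N)) = _
  rw [PowerSeries.coeff_mk]

open PowerSeries in
lemma GA_F0 (x : T) : GA (Fe 0 x) = X * GW x := by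
  ext N
  rw [coeff_GA]
  cases N with
  | zero =>
    rw [PowerSeries.coeff_zero_X_mul]
    exact fT_coeff_nil 0 x
  | succ N =>
    rw [PowerSeries.coeff_succ_X_mul, coeff_GW, altA_succ]
    change fT 0 x _ = _
    rw [fT_coeff, if_pos rfl]

lemma GA_F1 (x : T) : GA (Fe 1 x) = 0 := by
  ext N
  rw [coeff_GA, map_zero]
  cases N with
  | zero => exact fT_coeff_nil 1 x
  | succ N =>
    rw [altA_succ]
    change fT 1 x _ = _
    rw [fT_coeff, if_neg (by decide)]

lemma GW_F0 (x : T) : GW (Fe 0 x) = 0 := by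
  ext N
  rw [coeff_GW, map_zero, altW]
  change fT 0 x _ = _
  rw [fT_coeff, if_neg (by decide)]

lemma GW_F1 (x : T) : GW (Fe 1 x) = GA x := by
  ext N
  rw [coeff_GW, coeff_GA, altW]
  change fT 1 x _ = _
  rw [fT_coeff, if_pos rfl]

open PowerSeries in
lemma G_H0 (x : T) : GA (cm (Fe 0) (Fe 1) x) = X * GA x ∧ GW (cm (Fe 0) (Fe 1) x) = -(X * GW x) := by
  rw [cm_apply, map_sub, map_sub, GA_F0, GW_F1, GA_F1, GW_F0, GW_F1, GA_F0, sub_zero, zero_sub]
  exact ⟨rfl, rfl⟩

open PowerSeries in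
lemma G_TE (k : ℕ) (x : T) : GA (TE k x) = X ^ (k + 1) * GW x ∧ GW (TE k x) = 0 := by
  induction k generalizing x with
  | zero => rw [TE, LE]; exact ⟨by rw [GA_F0]; ring, GW_F0 x⟩
  | succ k ih =>
    have h1 : TE (k + 1) x = (2⁻¹ : ℂ) • (cm (Fe 0) (Fe 1) (TE k x) - TE k (cm (Fe 0) (Fe 1) x)) := by
      rfl
    rw [h1, map_smul, map_smul, map_sub, map_sub, (G_H0 _).1, (G_H0 _).2, (ih _).1, (ih _).2,
      (ih _).1, (ih _).2, (G_H0 _).2]
    constructor
    · have : X * (X ^ (k + 1) * GW x) - X ^ (k + 1) * -(X * GW x) =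
          (2 : ℂ) • (X ^ (k + 1 + 1) * GW x) := by
        rw [two_smul]; ring
      rw [this, smul_smul]; norm_num
    · simp

open PowerSeries in
lemma G_TF (k : ℕ) (x : T) : GA (TF k x) = 0 ∧ GW (TF k x) = X ^ k * GA x := by
  induction k generalizing x with
  | zero => rw [TF, LF]; exact ⟨GA_F1 x, by rw [GW_F1]; ring⟩
  | succ k ih =>
    have h1 : TF (k + 1) x = -((2⁻¹ : ℂ) • (cm (Fe 0) (Fe 1) (TF k x) -
        TF k (cm (Fe 0) (Fe 1) x))) := by
      rfl
    rw [h1, map_neg, map_neg, map_smul, map_smul, map_sub, map_sub, (G_H0 _).1, (G_H0 _).2, (ih _).1,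
      (ih _).2, (ih _).1, (ih _).2, (G_H0 _).1]
    constructor
    · simp
    · have : -(X * (X ^ k * GA x)) - X ^ k * (X * GA x) =
          (-2 : ℂ) • (X ^ (k + 1) * GA x) := by
        rw [neg_smul, two_smul]; ring
      rw [this, smul_smul, ← neg_smul]; norm_num

open PowerSeries in
lemma G_TH (k : ℕ) (x : T) : GA (TH k x) = X ^ (k + 1) * GA x ∧
    GW (TH k x) = -(X ^ (k + 1) * GW x) := by
  have h1 : TH k x = TE k (Fe 1 x) - Fe 1 (TE k x) := rfl
  rw [h1, map_sub, map_sub, (G_TE _ _).1, (G_TE _ _).2, GW_F1, GA_F1, GW_F1, (G_TE _ _).1, sub_zero,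
    zero_sub]
  exact ⟨rfl, rfl⟩

section numbers

variable (κ r : ℂ)

/-- The number `(a_N, a_N)`. -/
noncomputable def nA (N : ℕ) : ℂ := aT κ r N (altA N)

/-- The number `(w_N, w_N)`. -/
noncomputable def nW (N : ℕ) : ℂ := wT κ r N (altW N)

lemma nA_zero : nA κ r 0 = 1 := by
  rw [nA, aT_zero]; simp [altA]

lemma coeff_shift (k N : ℕ) (P : PowerSeries ℂ) (h : k ≤ N) :
    PowerSeries.coeff N (PowerSeries.X ^ k * P) = PowerSeries.coeff (N - k) P := by
  obtain ⟨m, rfl⟩ : ∃ m, N = m + k := ⟨N - k, by omega⟩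
  rw [PowerSeries.coeff_X_pow_mul, Nat.add_sub_cancel]

lemma nA_rec (hκ : ∀ N : ℕ, κ * ((N : ℂ) + 1) ≠ 0) (N : ℕ) :
    (κ * ((N : ℂ) + 1)) * nA κ r (N + 1) = ∑ j ∈ range (N + 1),
      (2⁻¹ * nA κ r j + nW κ r j) := by
  have h := congrArg (fun x => PowerSeries.coeff (N + 1) (GA x)) (recA κ r hκ N)
  simp only [map_smul, map_sum, map_add] at h
  rw [coeff_GA, smul_eq_mul] at h
  rw [nA, h]
  refine sum_congr rfl fun j hj => ?_
  have hj' := mem_range.mp hj
  rw [(G_TH _ _).1, (G_TE _ _).1, coeff_shift _ _ _ (by omega), coeff_shift _ _ _ (by omega),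
    coeff_GA, coeff_GW, smul_eq_mul]
  have e1 : N + 1 - (N - j + 1) = j := by omega
  rw [e1]
  rfl

lemma nW_rec (hκr : ∀ N : ℕ, κ * (N : ℂ) + r ≠ 0) (N : ℕ) :
    (κ * (N : ℂ) + r) * nW κ r N = ∑ j ∈ range (N + 1), nA κ r j +
      2⁻¹ * ∑ j ∈ range N, nW κ r j := by
  have h := congrArg (fun x => PowerSeries.coeff N (GW x)) (recW κ r hκr N)
  simp only [map_smul, map_sum, map_sub] at h
  rw [coeff_GW, smul_eq_mul] at h
  rw [nW, h, sub_eq_add_neg, ← smul_neg, ← sum_neg_distrib, smul_eq_mul]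
  congr 1
  · refine sum_congr rfl fun j hj => ?_
    have hj' := mem_range.mp hj
    rw [(G_TF _ _).2, coeff_shift _ _ _ (by omega), coeff_GA]
    have e1 : N - (N - j) = j := by omega
    rw [e1]
    rfl
  · congr 1
    refine sum_congr rfl fun j hj => ?_
    have hj' := mem_range.mp hj
    rw [(G_TH _ _).2, map_neg, neg_neg, coeff_shift _ _ _ (by omega), coeff_GW]
    have e1 : N - (N - 1 - j + 1) = j := by omega
    rw [e1]
    rfl

end numbers

end Pool.Agent.KS6_30.Affine
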