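import Pool.Agent.KS6_30.Weyl.Inter

/-!
The vectors `a_N`, `w_N` as combinations of words.
-/

set_option autoImplicit false

namespace Pool.Agent.KS6_30.Affine

open Finset

/-- `e(-k-1)` on words. -/
noncomputable def TE (k : ℕ) : Module.End ℂ T := LE (Fe 0) (Fe 1) k
/-- `f(-k)` on words. -/
noncomputable def TF (k : ℕ) : Module.End ℂ T := LF (Fe 0) (Fe 1) k
/-- `h(-k-1)` on words. -/
noncomputable def TH (k : ℕ) : Module.End ℂ T := LH (Fe 0) (Fe 1) k

/-- The vectors `(a_N, w_N)`. -/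
noncomputable def aw (κ r : ℂ) : ℕ → T × T
  | 0 => (Finsupp.single [] 1, r⁻¹ • TF 0 (Finsupp.single [] 1))
  | N + 1 =>
    ((κ * ((N : ℂ) + 1))⁻¹ • ∑ j : Fin (N + 1),
        ((2⁻¹ : ℂ) • TH (N - j.1) (aw κ r j.1).1 + TE (N - j.1) (aw κ r j.1).2),
      (κ * ((N : ℂ) + 1) + r)⁻¹ • (TF 0 ((κ * ((N : ℂ) + 1))⁻¹ • ∑ j : Fin (N + 1),
        ((2⁻¹ : ℂ) • TH (N - j.1) (aw κ r j.1).1 + TE (N - j.1) (aw κ r j.1).2)) +
        ∑ j : Fin (N + 1), (TF (N + 1 - j.1) (aw κ r j.1).1 -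
          (2⁻¹ : ℂ) • TH (N - j.1) (aw κ r j.1).2)))
  decreasing_by all_goals exact j.2

variable (κ r : ℂ)

/-- The vector `a_N`. -/
noncomputable def aT (N : ℕ) : T := (aw κ r N).1
/-- The vector `w_N`. -/
noncomputable def wT (N : ℕ) : T := (aw κ r N).2

lemma aT_zero : aT κ r 0 = Finsupp.single [] 1 := by rw [aT, aw]

lemma wT_zero : wT κ r 0 = r⁻¹ • TF 0 (aT κ r 0) := by rw [wT, aw, aT_zero]

lemma aT_succ (N : ℕ) : aT κ r (N + 1) = (κ * ((N : ℂ) + 1))⁻¹ • ∑ j ∈ range (N + 1),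
    ((2⁻¹ : ℂ) • TH (N - j) (aT κ r j) + TE (N - j) (wT κ r j)) := by
  rw [aT, aw, ← Fin.sum_univ_eq_sum_range
    (fun j => ((2⁻¹ : ℂ) • TH (N - j) (aT κ r j) + TE (N - j) (wT κ r j)))]
  rfl

lemma wT_succ (N : ℕ) : wT κ r (N + 1) = (κ * ((N : ℂ) + 1) + r)⁻¹ • (TF 0 (aT κ r (N + 1)) +
    ∑ j ∈ range (N + 1), (TF (N + 1 - j) (aT κ r j) - (2⁻¹ : ℂ) • TH (N - j) (wT κ r j))) := by
  rw [aT_succ, wT, aw, ← Fin.sum_univ_eq_sum_range
    (fun j => (TF (N + 1 - j) (aT κ r j) - (2⁻¹ : ℂ) • TH (N - j) (wT κ r j))),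
    ← Fin.sum_univ_eq_sum_range
    (fun j => ((2⁻¹ : ℂ) • TH (N - j) (aT κ r j) + TE (N - j) (wT κ r j)))]
  rfl

lemma recA (hκ : ∀ N : ℕ, κ * ((N : ℂ) + 1) ≠ 0) (N : ℕ) :
    (κ * ((N : ℂ) + 1)) • aT κ r (N + 1) = ∑ j ∈ range (N + 1),
      ((2⁻¹ : ℂ) • TH (N - j) (aT κ r j) + TE (N - j) (wT κ r j)) := by
  rw [aT_succ, smul_smul, mul_inv_cancel₀ (hκ N), one_smul]

lemma recW (hκr : ∀ N : ℕ, κ * (N : ℂ) + r ≠ 0) (N : ℕ) :
    (κ * (N : ℂ) + r) • wT κ r N = ∑ j ∈ range (N + 1), TF (N - j) (aT κ r j) -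
      (2⁻¹ : ℂ) • ∑ j ∈ range N, TH (N - 1 - j) (wT κ r j) := by
  cases N with
  | zero =>
    have h := hκr 0
    simp only [Nat.cast_zero, mul_zero, zero_add] at h
    rw [wT_zero]
    simp only [Nat.cast_zero, mul_zero, zero_add, range_one, sum_singleton, range_zero, sum_empty,
      smul_zero, sub_zero, Nat.sub_self]
    rw [smul_smul, mul_inv_cancel₀ h, one_smul]
  | succ M =>
    have h := hκr (M + 1)
    push_cast at h
    rw [wT_succ]
    push_cast
    rw [smul_smul, mul_inv_cancel₀ h, one_smul, sum_range_succ _ (M + 1), sum_sub_distrib,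
      ← smul_sum, Nat.sub_self]
    abel

/-! ### Passing to the quotient -/

section quotient

variable (lam : Fin 2 → ℤ)

lemma mk_LE (k : ℕ) (x : T) : LE (fQ lam 0) (fQ lam 1) k (mkW lam x) = mkW lam (TE k x) := by
  induction k generalizing x with
  | zero => rfl
  | succ k ih =>
    rw [TE, LE, LE, LinearMap.smul_apply, LinearMap.smul_apply, map_smul]
    congr 1
    exact toCm lam (toCm lam (fQ_mk lam 0) (fQ_mk lam 1)) ih x

lemma mk_LF (k : ℕ) (x : T) : LF (fQ lam 0) (fQ lam 1) k (mkW lam x) = mkW lam (TF k x) := by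
  induction k generalizing x with
  | zero => rfl
  | succ k ih =>
    rw [TF, LF, LF, LinearMap.neg_apply, LinearMap.neg_apply, LinearMap.smul_apply,
      LinearMap.smul_apply, map_neg, map_smul]
    congr 2
    exact toCm lam (toCm lam (fQ_mk lam 0) (fQ_mk lam 1)) ih x

lemma mk_LH (k : ℕ) (x : T) : LH (fQ lam 0) (fQ lam 1) k (mkW lam x) = mkW lam (TH k x) :=
  toCm lam (fun x => mk_LE lam k x) (fQ_mk lam 1) x

lemma relQ_ef (i j : Fin 2) : cm (eQ lam i) (fQ lam j) = if i = j then hQ lam i else 0 := by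
  refine extW lam fun x => ?_
  rw [toCm lam (eQ_mk lam i) (fQ_mk lam j), rel_ef]
  split_ifs
  · rfl
  · rw [LinearMap.zero_apply, map_zero]; rfl

lemma relT_hf (i j : Fin 2) : cm (He lam i) (Fe j) = (-(cartan i j : ℂ)) • Fe j := by
  refine LinearMap.ext fun x => ?_
  rw [cm_apply]
  change hT lam i (fT j x) - fT j (hT lam i x) = (-(cartan i j : ℂ)) • fT j x
  rw [hT, gT_fT]
  module

lemma relQ_hf (i j : Fin 2) : cm (hQ lam i) (fQ lam j) = (-(cartan i j : ℂ)) • fQ lam j := by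
  refine extW lam fun x => ?_
  rw [toCm lam (hQ_mk lam i) (fQ_mk lam j), relT_hf, LinearMap.smul_apply, LinearMap.smul_apply,
    fQ_mk, map_smul]

lemma relQ_serre (i j : Fin 2) (hij : i ≠ j) :
    cm (fQ lam i) (cm (fQ lam i) (cm (fQ lam i) (fQ lam j))) = 0 := by
  refine extW lam fun x => ?_
  rw [toCm lam (fQ_mk lam i) (toCm lam (fQ_mk lam i) (toCm lam (fQ_mk lam i) (fQ_mk lam j)))]
  exact (Submodule.Quotient.mk_eq_zero _).mpr (serre_f lam i j hij x)

/-- Weights of the vectors. -/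
lemma wt_aw (i : Fin 2) (c : ℂ) (hc0 : cm (He lam i) (Fe 0) = c • Fe 0)
    (hc1 : cm (He lam i) (Fe 1) = (-c) • Fe 1) (N : ℕ) :
    He lam i (aT κ r N) = (lam i : ℂ) • aT κ r N ∧
      He lam i (wT κ r N) = ((lam i : ℂ) - c) • wT κ r N := by
  have sE := fun k => wE (Fe 0) (Fe 1) c (He lam i) hc0 hc1 k
  have sF := fun k => wF (Fe 0) (Fe 1) c (He lam i) hc0 hc1 k
  have sH := fun k => wHk (Fe 0) (Fe 1) c (He lam i) hc0 hc1 k
  have pE : ∀ k x (μ : ℂ), He lam i x = μ • x → He lam i (TE k x) = (μ + c) • TE k x := by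
    intro k x μ hx
    rw [TE, swapA (He lam i), hx, sE, LinearMap.smul_apply, map_smul]; module
  have pF : ∀ k x (μ : ℂ), He lam i x = μ • x → He lam i (TF k x) = (μ - c) • TF k x := by
    intro k x μ hx
    rw [TF, swapA (He lam i), hx, sF, LinearMap.smul_apply, map_smul]; module
  have pH : ∀ k x (μ : ℂ), He lam i x = μ • x → He lam i (TH k x) = μ • TH k x := by
    intro k x μ hx
    rw [TH, swapA (He lam i), hx, sH, LinearMap.zero_apply, map_smul, add_zero]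
  induction N using Nat.strong_induction_on with
  | _ N ih =>
  have hA : He lam i (aT κ r N) = (lam i : ℂ) • aT κ r N := by
    cases N with
    | zero =>
      rw [aT_zero]
      change gT _ _ _ = _
      rw [gT_single]
      simp [ev]
    | succ M =>
      rw [aT_succ, map_smul, smul_comm (lam i : ℂ)]
      congr 1
      rw [map_sum, Finset.smul_sum]
      refine Finset.sum_congr rfl fun j hj => ?_
      obtain ⟨b1, b2⟩ := ih j (mem_range.mp hj)
      rw [map_add, map_smul, pH _ _ _ b1, pE _ _ _ b2, smul_add, smul_comm, sub_add_cancel]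
  refine ⟨hA, ?_⟩
  cases N with
  | zero =>
    rw [wT_zero, map_smul, pF _ _ _ hA, smul_comm]
  | succ M =>
    rw [wT_succ, map_smul, smul_comm ((lam i : ℂ) - c)]
    congr 1
    rw [map_add, smul_add, pF _ _ _ hA]
    congr 1
    rw [map_sum, Finset.smul_sum]
    refine Finset.sum_congr rfl fun j hj => ?_
    obtain ⟨b1, b2⟩ := ih j (mem_range.mp hj)
    rw [map_sub, map_smul, pH _ _ _ b2, pF _ _ _ b1, smul_sub, smul_comm]

/-- The vectors in the quotient satisfy the assumptions of `KZ`. -/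
theorem kz (hκ : κ = (lam 0 : ℂ) + lam 1 + 2) (hr : r = (lam 1 : ℂ))
    (hκ0 : ∀ N : ℕ, κ * ((N : ℂ) + 1) ≠ 0) (hκr : ∀ N : ℕ, κ * (N : ℂ) + r ≠ 0) :
    KZ (fQ lam 0) (fQ lam 1) (eQ lam 0) (eQ lam 1) (hQ lam 0) (hQ lam 1) κ r
      (fun N => mkW lam (aT κ r N)) (fun N => mkW lam (wT κ r N)) where
  e00 := by rw [relQ_ef, if_pos rfl]
  e01 := by rw [relQ_ef, if_neg (by decide)]
  e10 := by rw [relQ_ef, if_neg (by decide)]
  e11 := by rw [relQ_ef, if_pos rfl]
  h00 := by rw [relQ_hf]; norm_num [cartan]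
  h01 := by rw [relQ_hf]; norm_num [cartan]
  h10 := by rw [relQ_hf]; norm_num [cartan]
  h11 := by rw [relQ_hf]; norm_num [cartan]
  hs0 := relQ_serre lam 0 1 (by decide)
  hs1 := relQ_serre lam 1 0 (by decide)
  hκ := hκ0
  hκr := hκr
  rα N := by
    simp only [mk_LE, mk_LH]
    rw [← map_smul, recA κ r hκ0, map_sum]
    refine sum_congr rfl fun j _ => ?_
    rw [map_add, map_smul]
  rω N := by
    simp only [mk_LF, mk_LH]
    rw [← map_smul, recW κ r hκr, map_sub, map_smul, map_sum, map_sum]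
  a0 := by
    rw [aT_zero, eQ_mk]
    change mkW _ (eT _ _ _) = 0
    rw [eT_nil, map_zero]
  a1 := by
    rw [aT_zero, eQ_mk]
    change mkW _ (eT _ _ _) = 0
    rw [eT_nil, map_zero]
  w1α N := by
    have h := (wt_aw κ r lam 1 2 (by rw [relT_hf]; norm_num [cartan])
      (by rw [relT_hf]; norm_num [cartan]) N).1
    rw [hQ_mk, h, map_smul, hr]
  w0ω N := by
    have h := (wt_aw κ r lam 0 (-2) (by rw [relT_hf]; norm_num [cartan])
      (by rw [relT_hf]; norm_num [cartan]) N).2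
    rw [hQ_mk, h, map_smul, hr, hκ]
    congr 1
    ring

end quotient

end Pool.Agent.KS6_30.Affine
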